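import Pool.Agent.LangSuper.Finite

/-! Finiteness of the set of solutions of fixed level and bounded degree (helper file). -/

set_option linter.unusedSectionVars false
set_option linter.unusedSimpArgs false
set_option linter.unusedVariables false
set_option maxHeartbeats 400000

open Polynomial Filter

namespace Pool.Agent.LangEll

open Pool.Agent.LangSuper

variable {ι : Type*} [Fintype ι]

theorem finite_sol_bdd (α β : ι → ℂ) (m : ι → ℕ) (q M : ℕ)
    (hnz : ∀ i, α i ≠ 0 ∨ β i ≠ 0) (hM : 1 ≤ M)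
    (hm : ∀ i, 0 < m i ∧ m i < q)
    (hsum : ∑ i, m i = q * (M + 1))
    (hprop : ∀ i j, i ≠ j → α i * β j ≠ α j * β i)
    (h : ℂ[X]) (h0 : h.coeff 0 ≠ 0) (hdeg : 0 < h.natDegree) (hhq : h.natDegree < q)
    (k : ℕ) (hk : 0 < k) (N : ℕ) : {R : RatFunc ℂ | Sol α β m q h k R ∧
      R.num.natDegree ≤ N ∧ R.denom.natDegree ≤ N}.Finite := by
  by_contra hinf
  set e := Set.Infinite.natEmbedding _ hinf with he
  set R : ℕ → RatFunc ℂ := fun i => (e i : RatFunc ℂ) with hRdef
  have hRinj : Function.Injective R := fun i j hij => e.injective (Subtype.ext hij)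
  have hRS : ∀ i, Sol α β m q h k (R i) := fun i => (e i).2.1
  have hN : ∀ i, (R i).num.natDegree ≤ N ∧ (R i).denom.natDegree ≤ N := fun i => (e i).2.2
  choose z₁ z₂ hz₁ hz₂ hrel hb3 hb4 using fun i =>
    degree_bounds α β m q M hm hsum h h0 hdeg hhq k hk N (R i) (hRS i) (hN i)
  obtain ⟨X', hX'⟩ := exists_family (fun i => (R i).num) _ (fun i => (hN i).1)
  obtain ⟨Y', hY'⟩ := exists_family (fun i => (R i).denom) _ (fun i => (hN i).2)
  obtain ⟨Z₁', hZ₁'⟩ := exists_family z₁ _ hb4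
  obtain ⟨Z₂', hZ₂'⟩ := exists_family z₂ _ hb3
  have hcst : ∀ (i : ℕ) (P : ℂ[X]), (P.map (Pi.constRingHom ℕ ℂ)).map (uev i) = P := by
    intro i P
    rw [Polynomial.map_map]
    have : (uev i).comp (Pi.constRingHom ℕ ℂ) = RingHom.id ℂ := by ext a; rfl
    rw [this, Polynomial.map_id]
  have hrelP : bform (fun i => Pi.constRingHom ℕ ℂ (α i)) (fun i => Pi.constRingHom ℕ ℂ (β i)) m
      X' Y' * Z₂' ^ q = expand _ k (h.map (Pi.constRingHom ℕ ℂ)) * Z₁' ^ q := by
    apply family_ext
    intro i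
    rw [Polynomial.map_mul, Polynomial.map_mul, map_bform, Polynomial.map_pow, Polynomial.map_pow,
      map_expand, hcst, hX', hY', hZ₁', hZ₂']
    exact hrel i
  have hrelL := congrArg (Polynomial.map umk) hrelP
  rw [Polynomial.map_mul, Polynomial.map_mul, map_bform, Polynomial.map_pow, Polynomial.map_pow,
      map_expand, Polynomial.map_map] at hrelL
  have hy0 : Y'.map umk ≠ 0 := map_umk_ne_zero _ fun i => by rw [hY']; exact (R i).denom_ne_zero
  have hz10 : Z₁'.map umk ≠ 0 := map_umk_ne_zero _ fun i => by rw [hZ₁']; exact hz₁ i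
  have hz20 : Z₂'.map umk ≠ 0 := map_umk_ne_zero _ fun i => by rw [hZ₂']; exact hz₂ i
  have hy0' := RatFunc.algebraMap_ne_zero hy0
  have hz10' := RatFunc.algebraMap_ne_zero hz10
  have hz20' := RatFunc.algebraMap_ne_zero hz20
  set Rs : RatFunc UL := algebraMap UL[X] (RatFunc UL) (X'.map umk) /
    algebraMap UL[X] (RatFunc UL) (Y'.map umk) with hRs
  have hRsx : algebraMap UL[X] (RatFunc UL) (X'.map umk)
      = Rs * algebraMap UL[X] (RatFunc UL) (Y'.map umk) := by
    rw [hRs]; field_simp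
  have hsol : Sol (fun i => algebraMap ℂ UL (α i)) (fun i => algebraMap ℂ UL (β i)) m q
      (h.map (algebraMap ℂ UL)) k Rs := by
    refine ⟨algebraMap UL[X] (RatFunc UL) (Z₁'.map umk) /
      (algebraMap UL[X] (RatFunc UL) (Z₂'.map umk) *
        algebraMap UL[X] (RatFunc UL) (Y'.map umk) ^ (M + 1)), ?_, ?_⟩
    · exact div_ne_zero hz10' (mul_ne_zero hz20' (pow_ne_zero _ hy0'))
    · have h1 := algebraMap_bform (fun i => algebraMap ℂ UL (α i)) (fun i => algebraMap ℂ UL (β i))
        m (X'.map umk) (Y'.map umk) hy0 Rs hRsx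
      have h2 := congrArg (algebraMap UL[X] (RatFunc UL)) hrelL
      rw [map_mul, map_mul, map_pow, map_pow] at h2
      change algebraMap UL[X] (RatFunc UL) (bform (fun i => algebraMap ℂ UL (α i))
        (fun i => algebraMap ℂ UL (β i)) m (X'.map umk) (Y'.map umk)) * _
        = algebraMap UL[X] (RatFunc UL) (expand UL k (h.map (algebraMap ℂ UL))) * _ at h2
      rw [h1, hsum] at h2
      rw [div_pow, mul_pow, ← pow_mul, mul_comm (M + 1) q, mul_div_assoc', eq_div_iff
        (mul_ne_zero (pow_ne_zero _ hz20') (pow_ne_zero _ hy0')), ← h2]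
      ring
  obtain ⟨P, Q, hQ, hP', hQ'⟩ := rigid α β m q M hnz hM hm hsum hprop h h0 hdeg hhq k hk Rs hsol
  have h3 : X'.map umk * Rs.denom = Y'.map umk * Rs.num := by
    apply RatFunc.algebraMap_injective UL
    rw [map_mul, map_mul, hRsx, ratnum_eq Rs]
    ring
  rw [hP', hQ'] at h3
  have h4 : (X' * Q.map (Pi.constRingHom ℕ ℂ) - Y' * P.map (Pi.constRingHom ℕ ℂ)).map umk = 0 := by
    rw [Polynomial.map_sub, Polynomial.map_mul, Polynomial.map_mul, Polynomial.map_map,
      Polynomial.map_map, sub_eq_zero]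
    exact h3
  have h5 := eventually_map_eq_zero _ h4
  have h6 : ∀ᶠ i in (hyperfilter ℕ : Filter ℕ),
      R i = algebraMap ℂ[X] (RatFunc ℂ) P / algebraMap ℂ[X] (RatFunc ℂ) Q := by
    filter_upwards [h5] with i hi
    rw [Polynomial.map_sub, Polynomial.map_mul, Polynomial.map_mul, hcst, hcst, hX', hY',
      sub_eq_zero] at hi
    have h7 := congrArg (algebraMap ℂ[X] (RatFunc ℂ)) hi
    rw [map_mul, map_mul, ratnum_eq (R i)] at h7
    rw [eq_div_iff (RatFunc.algebraMap_ne_zero hQ)]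
    have h8 := RatFunc.algebraMap_ne_zero (R i).denom_ne_zero
    apply mul_left_cancel₀ h8
    rw [← h7]
    ring
  have h9 : {i | R i = algebraMap ℂ[X] (RatFunc ℂ) P / algebraMap ℂ[X] (RatFunc ℂ) Q}.Finite := by
    apply Set.Subsingleton.finite
    intro i hi j hj
    exact hRinj (hi.trans hj.symm)
  exact (notMem_hyperfilter_of_finite h9) h6

end Pool.Agent.LangEll
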