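import Pool.Agent.LangEll.One
import Pool.Agent.LangSuper.Master

/-! Isotrivial elliptic fibrations (helper file). -/

set_option linter.unusedSectionVars false
set_option linter.unusedSimpArgs false
set_option linter.unusedVariables false
set_option maxHeartbeats 400000

open Polynomial

namespace Pool.Agent.LangEll

open Pool.Agent.LangSuper

/-- The theorem in normalised form. -/
theorem ell_aux {ι : Type*} [Fintype ι] (α β : ι → ℂ) (m : ι → ℕ) (q : ℕ)
    (hprop : ∀ i j, i ≠ j → α i * β j ≠ α j * β i)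
    (hm : ∀ i, 0 < m i ∧ m i < q) (hsum : ∑ i, m i = q * 2)
    (h : ℂ[X]) (h0 : h.coeff 0 ≠ 0) (hdeg : 0 < h.natDegree) (hhq : h.natDegree < q)
    (A : Type) [CommRing A] [IsDomain A] [Algebra ℂ A] [Algebra.FiniteType ℂ A]
    (hA : Algebra.trdeg ℂ A = 2) (u v : Aˣ) (R Z : FractionRing A) (hZ : Z ≠ 0)
    (hRu : AlgebraicIndependent ℂ ![R, algebraMap A (FractionRing A) u])
    (hrel : ∏ i, (algebraMap ℂ (FractionRing A) (α i) * R
        + algebraMap ℂ (FractionRing A) (β i)) ^ m i
      = algebraMap A (FractionRing A) ((v : A) * aeval (u : A) h) * Z ^ q) :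
    ∃ g : A, g ≠ 0 ∧ ∀ φ : A →ₐ[ℂ] LaurentPolynomial ℂ,
      (∃ x, ∀ c, φ x ≠ LaurentPolynomial.C c) → φ g = 0 := by
  have hnz := forms_ne_zero α β m q 2 hprop hm le_rfl hsum
  obtain ⟨B, hB⟩ := exists_supp_level α β m q 1 hnz le_rfl hm hsum hprop h h0 hdeg hhq
  exact surface_one α β m q hnz hm hsum hprop h h0 hdeg hhq _
    (level_of_supp_one α β m q hnz hm hsum hprop h h0 hdeg hhq B hB) A hA u v R Z hZ hRu hrel

/-- In genus one the two conditions force the sum of the exponents. -/
theorem sum_eq_of_genus_one {ι : Type*} [Fintype ι] (n : ι → ℕ) (q : ℕ) (hq : 0 < q)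
    (hgen : ∑ a, (q - Nat.gcd (n a) q) = 2 * q) (hforms : 2 * q ≤ ∑ a, n a % q) :
    ∑ a, n a % q = 2 * q := by
  refine le_antisymm ?_ hforms
  rw [← hgen]
  refine Finset.sum_le_sum fun a _ => ?_
  have h1 : Nat.gcd (n a % q) q = Nat.gcd (n a) q := (Nat.mod_modEq (n a) q).gcd_eq
  rw [← h1]
  have h2 : n a % q < q := Nat.mod_lt _ hq
  have h3 : Nat.gcd (n a % q) q ∣ q - n a % q :=
    Nat.dvd_sub (Nat.gcd_dvd_right _ _) (Nat.gcd_dvd_left _ _)
  have h4 := Nat.le_of_dvd (by omega) h3
  omega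

/-- The main theorem. -/
theorem master_ell {ι κ : Type*} [Fintype ι] [Fintype κ] (α β : ι → ℂ) (m : ι → ℕ)
    (r : κ → ℂ) (e : κ → ℕ) (q i : ℕ)
    (hprop : ∀ a b, a ≠ b → α a * β b ≠ α b * β a) (hr : ∀ p, r p ≠ 0)
    (hforms : ∑ a, (i * m a) % q = 2 * q)
    (hpos : 0 < ∑ p, (i * e p) % q) (hgap : ∑ p, (i * e p) % q < q)
    (A : Type) [CommRing A] [IsDomain A] [Algebra ℂ A] [Algebra.FiniteType ℂ A]
    (hA : Algebra.trdeg ℂ A = 2) (u v : Aˣ) (R Z : FractionRing A) (hZ : Z ≠ 0)
    (hRu : AlgebraicIndependent ℂ ![R, algebraMap A (FractionRing A) u])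
    (hrel : ∏ a, (algebraMap ℂ (FractionRing A) (α a) * R
        + algebraMap ℂ (FractionRing A) (β a)) ^ m a
      = algebraMap A (FractionRing A) ((v : A) * ∏ p, ((u : A) - algebraMap ℂ A (r p)) ^ e p)
        * Z ^ q) :
    ∃ g : A, g ≠ 0 ∧ ∀ φ : A →ₐ[ℂ] LaurentPolynomial ℂ,
      (∃ x, ∀ c, φ x ≠ LaurentPolynomial.C c) → φ g = 0 := by
  classical
  have hq : 0 < q := by omega
  have hinj : Function.Injective (algebraMap A (FractionRing A)) :=
    IsFractionRing.injective A (FractionRing A)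
  have hcard : 3 ≤ Fintype.card ι := by
    by_contra hcon
    have h1 : ∑ a, (i * m a) % q ≤ ∑ _a : ι, (q - 1) :=
      Finset.sum_le_sum fun a _ => by
        have := Nat.mod_lt (i * m a) hq
        omega
    rw [Finset.sum_const, Finset.card_univ, smul_eq_mul] at h1
    have h2 : Fintype.card ι * (q - 1) ≤ 2 * (q - 1) := Nat.mul_le_mul_right _ (by omega)
    omega
  -- the reduced exponents
  set m' : ι → ℕ := fun a => (i * m a) % q with hm'
  set e' : κ → ℕ := fun p => (i * e p) % q with he'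
  -- restriction to the branch points
  set B : Type _ := {a : ι // m' a ≠ 0} with hB
  have hsumB : ∀ f : ι → ℕ, (∀ a, m' a = 0 → f a = 0) → ∑ a : B, f a = ∑ a, f a := by
    intro f hf
    rw [← Fintype.sum_subtype_add_sum_subtype (fun a => m' a ≠ 0) f]
    have : ∑ a : {a // ¬ m' a ≠ 0}, f a = 0 :=
      Finset.sum_eq_zero fun a _ => hf a (not_not.mp a.2)
    rw [this, add_zero]
  have hprodB : ∀ f : ι → FractionRing A, (∀ a, m' a = 0 → f a = 1) → ∏ a : B, f a = ∏ a, f a := by
    intro f hf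
    rw [← Fintype.prod_subtype_mul_prod_subtype (fun a => m' a ≠ 0) f]
    have : ∏ a : {a // ¬ m' a ≠ 0}, f a = 1 :=
      Finset.prod_eq_one fun a _ => hf a (not_not.mp a.2)
    rw [this, mul_one]
  -- the polynomial
  set h : ℂ[X] := ∏ p, (X - C (r p)) ^ e' p with hh
  have hdeg : h.natDegree = ∑ p, e' p := by
    rw [hh, natDegree_prod_of_monic _ _ fun p _ => (monic_X_sub_C _).pow _]
    refine Finset.sum_congr rfl fun p _ => ?_
    rw [natDegree_pow, natDegree_X_sub_C, mul_one]
  have hc0 : h.coeff 0 ≠ 0 := by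
    rw [coeff_zero_eq_eval_zero, hh, eval_prod, Finset.prod_ne_zero_iff]
    intro p _
    rw [eval_pow, eval_sub, eval_X, eval_C, zero_sub]
    exact pow_ne_zero _ (neg_ne_zero.mpr (hr p))
  -- nonvanishing
  have hup : ∀ p, algebraMap A (FractionRing A) ((u : A) - algebraMap ℂ A (r p)) ≠ 0 := by
    intro p h0
    have h1 := hRu.transcendental (i := 1)
    apply h1
    refine ⟨X - C (r p), X_sub_C_ne_zero _, ?_⟩
    simp only [Matrix.cons_val_one, Matrix.cons_val_fin_one]
    rw [map_sub, ← IsScalarTower.algebraMap_apply] at h0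
    simpa using h0
  have hL0 : ∀ a, algebraMap ℂ (FractionRing A) (α a) * R
      + algebraMap ℂ (FractionRing A) (β a) ≠ 0 := by
    intro a h0
    obtain ⟨b, hb⟩ : ∃ b, b ≠ a := by
      have : Nontrivial ι := Fintype.one_lt_card_iff_nontrivial.mp (by omega)
      exact exists_ne a
    have h1 := hRu.transcendental (i := 0)
    apply h1
    refine ⟨C (α a) * X + C (β a), ?_, ?_⟩
    · intro h2
      have h3 := congrArg (fun p => p.coeff 0) h2
      have h4 := congrArg (fun p => p.coeff 1) h2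
      simp at h3 h4
      apply hprop a b hb.symm
      rw [h3, h4]
      ring
    · simp only [Matrix.cons_val_zero]
      simpa using h0
  -- the new function `Z`
  set Z' : FractionRing A := (∏ p, algebraMap A (FractionRing A) ((u : A) - algebraMap ℂ A (r p))
      ^ (i * e p / q)) * Z ^ i /
    ∏ a, (algebraMap ℂ (FractionRing A) (α a) * R + algebraMap ℂ (FractionRing A) (β a))
      ^ (i * m a / q) with hZ'
  have hprodL : ∏ a, (algebraMap ℂ (FractionRing A) (α a) * R
      + algebraMap ℂ (FractionRing A) (β a)) ^ (i * m a / q) ≠ 0 :=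
    Finset.prod_ne_zero_iff.mpr fun a _ => pow_ne_zero _ (hL0 a)
  refine ell_aux (fun a : B => α a) (fun a : B => β a) (fun a : B => m' a) q
    (fun a b hab => hprop a b fun h' => hab (Subtype.ext h'))
    (fun a => ⟨Nat.pos_of_ne_zero a.2, Nat.mod_lt _ hq⟩)
    (by rw [hsumB m' fun a ha => ha, mul_comm]; exact hforms) h hc0 (by rw [hdeg]; exact hpos)
    (by rw [hdeg]; exact hgap) A hA u (v ^ i) R Z' ?_ hRu ?_
  · refine div_ne_zero (mul_ne_zero ?_ (pow_ne_zero _ hZ)) hprodL
    exact Finset.prod_ne_zero_iff.mpr fun p _ => pow_ne_zero _ (hup p)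
  · have h1 := reduce_exponents (fun a => algebraMap ℂ (FractionRing A) (α a) * R
        + algebraMap ℂ (FractionRing A) (β a))
      (fun p => algebraMap A (FractionRing A) ((u : A) - algebraMap ℂ A (r p)))
      (algebraMap A (FractionRing A) (v : A)) Z hL0 m e q i (by
        rw [hrel, map_mul, map_prod]
        simp only [map_pow])
    rw [hprodB (fun a => (algebraMap ℂ (FractionRing A) (α a) * R
        + algebraMap ℂ (FractionRing A) (β a)) ^ m' a) fun a ha => by rw [ha, pow_zero]]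
    rw [h1, hZ']
    congr 1
    rw [Units.val_pow_eq_pow_val, map_mul, map_pow, hh, map_prod, map_prod]
    congr 1
    refine Finset.prod_congr rfl fun p _ => ?_
    simp only [map_pow, map_sub, aeval_X, aeval_C]
    rfl

end Pool.Agent.LangEll
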