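import Pool.Agent.LangEll.Surf
import Pool.Agent.LangEll.FiniteBdd
import Pool.Agent.LangSuper.Relation

/-! The theorem on surfaces when there is only one differential form (helper file). -/

set_option linter.unusedSectionVars false
set_option linter.unusedSimpArgs false
set_option linter.unusedVariables false
set_option maxHeartbeats 1000000

open Polynomial

namespace Pool.Agent.LangEll

open Pool.Agent.LangSuper

variable {ι : Type*} [Fintype ι]

theorem algInd_inv {F : Type} [Field F] [Algebra ℂ F] (R u : F)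
    (h : AlgebraicIndependent ℂ ![R, u]) : AlgebraicIndependent ℂ ![R, u⁻¹] := by
  rw [AlgebraicIndependent.iff_transcendental_adjoin_image 1] at h ⊢
  obtain ⟨h1, h2⟩ := h
  constructor
  · convert h1 using 1
    funext j
    obtain ⟨j, hj⟩ := j
    fin_cases j
    · rfl
    · exact absurd rfl hj
  · have e : (![R, u⁻¹] '' {1}ᶜ) = (![R, u] '' {1}ᶜ) := by
      apply Set.image_congr
      intro j hj
      fin_cases j
      · rfl
      · exact absurd rfl hj
    rw [e]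
    intro h3
    apply h2
    have h4 := h3.inv
    simpa using h4

theorem natDegree_le_of_ratio (f : ℕ) (hf : 0 < f) (R : RatFunc ℂ) (wa wb : ℂ[X]) (hwb : wb ≠ 0)
    (N : ℕ) (hN : 0 ≤ N) (h : psi f hf R * algebraMap ℂ[X] (RatFunc ℂ) wb
      = algebraMap ℂ[X] (RatFunc ℂ) wa) (ha : wa.natDegree ≤ f * N) (hb : wb.natDegree ≤ f * N) :
    R.num.natDegree ≤ N ∧ R.denom.natDegree ≤ N := by
  have h1 : expand ℂ f R.num * wb = wa * expand ℂ f R.denom := by
    apply RatFunc.algebraMap_injective ℂ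
    rw [map_mul, map_mul, ← h, ← psi_algebraMap f hf, ← psi_algebraMap f hf, ratnum_eq R, map_mul]
    ring
  have hcop : IsCoprime (expand ℂ f R.num) (expand ℂ f R.denom) :=
    (RatFunc.isCoprime_num_denom R).map (expand ℂ f).toRingHom
  have hd1 : expand ℂ f R.num ∣ wa := by
    have : expand ℂ f R.num ∣ wa * expand ℂ f R.denom := by rw [← h1]; exact Dvd.intro _ rfl
    exact hcop.dvd_of_dvd_mul_right this
  have hd2 : expand ℂ f R.denom ∣ wb := by
    have : expand ℂ f R.denom ∣ expand ℂ f R.num * wb := by rw [h1]; exact Dvd.intro_left _ rfl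
    exact hcop.symm.dvd_of_dvd_mul_left this
  constructor
  · by_cases hwa : wa = 0
    · have h2 : R = 0 := by
        rw [hwa, map_zero] at h
        have h3 := (mul_eq_zero.mp h).resolve_right (RatFunc.algebraMap_ne_zero hwb)
        exact (_root_.map_eq_zero (psi f hf)).mp h3
      rw [h2]
      simp
    · have h2 := natDegree_le_of_dvd hd1 hwa
      rw [natDegree_expand, mul_comm] at h2
      exact Nat.le_of_mul_le_mul_left (h2.trans ha) hf
  · have h2 := natDegree_le_of_dvd hd2 hwb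
    rw [natDegree_expand, mul_comm] at h2
    exact Nat.le_of_mul_le_mul_left (h2.trans hb) hf

theorem surface_one (α β : ι → ℂ) (m : ι → ℕ) (q : ℕ)
    (hnz : ∀ i, α i ≠ 0 ∨ β i ≠ 0)
    (hm : ∀ i, 0 < m i ∧ m i < q)
    (hsum : ∑ i, m i = q * (1 + 1))
    (hprop : ∀ i j, i ≠ j → α i * β j ≠ α j * β i)
    (h : ℂ[X]) (h0 : h.coeff 0 ≠ 0) (hdeg : 0 < h.natDegree) (hhq : h.natDegree < q)
    (B : ℕ) (hLP : LevelProp α β m q h B)
    (A : Type) [CommRing A] [IsDomain A] [Algebra ℂ A] [Algebra.FiniteType ℂ A]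
    (hA : Algebra.trdeg ℂ A = 2) (u v : Aˣ) (R Z : FractionRing A) (hZ : Z ≠ 0)
    (hRu : AlgebraicIndependent ℂ ![R, algebraMap A (FractionRing A) u])
    (hrel : ∏ i, (algebraMap ℂ (FractionRing A) (α i) * R
        + algebraMap ℂ (FractionRing A) (β i)) ^ m i
      = algebraMap A (FractionRing A) (v * aeval (u : A) h) * Z ^ q) :
    ∃ g : A, g ≠ 0 ∧ ∀ φ : A →ₐ[ℂ] LaurentPolynomial ℂ,
      (∃ x, ∀ c, φ x ≠ LaurentPolynomial.C c) → φ g = 0 := by
  classical
  have hq : 0 < q := by omega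
  have hh : h ≠ 0 := by rintro rfl; simp at h0
  obtain ⟨a, b, hb, hR⟩ := IsFractionRing.div_surjective (A := A) R
  have hb0 : b ≠ 0 := nonZeroDivisors.ne_zero hb
  subst hR
  obtain ⟨hB, hLP⟩ := hLP
  set u' : A := ((u⁻¹ : Aˣ) : A) with hu'
  have huu' : algebraMap A (FractionRing A) u' = (algebraMap A (FractionRing A) (u : A))⁻¹ := by
    have h1 : algebraMap A (FractionRing A) u' * algebraMap A (FractionRing A) (u : A) = 1 := by
      rw [← map_mul, hu', Units.inv_mul, map_one]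
    exact eq_inv_of_mul_eq_one_left h1
  have hRu' : AlgebraicIndependent ℂ ![algebraMap A (FractionRing A) a /
      algebraMap A (FractionRing A) b, algebraMap A (FractionRing A) u'] := by
    rw [huu']
    exact algInd_inv _ _ hRu
  -- the reversed polynomial
  have h0' : (reverse h).coeff 0 ≠ 0 := by
    rw [coeff_zero_reverse]
    exact leadingCoeff_ne_zero.mpr hh
  have hdeg' : (reverse h).natDegree = h.natDegree := by
    rw [reverse_natDegree]
    have : h.natTrailingDegree = 0 := natTrailingDegree_eq_zero.mpr (Or.inr h0)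
    omega
  set K : Finset ℕ := B.divisors.image (q * ·) with hKdef
  have hK : ∀ k ∈ K, 0 < k := by
    intro k hk
    rw [hKdef, Finset.mem_image] at hk
    obtain ⟨d, hd, rfl⟩ := hk
    exact Nat.mul_pos hq (Nat.pos_of_mem_divisors hd)
  obtain ⟨ga, Na, hga, PBa⟩ := pole_bound α β m q hnz hm hsum hprop h h0 hdeg hhq A hA a b u hb0
    hRu a K hK
  obtain ⟨gb, Nb, hgb, PBb⟩ := pole_bound α β m q hnz hm hsum hprop h h0 hdeg hhq A hA a b u hb0
    hRu b K hK
  obtain ⟨ga', Na', hga', PBa'⟩ := pole_bound α β m q hnz hm hsum hprop (reverse h) h0'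
    (by rw [hdeg']; exact hdeg) (by rw [hdeg']; exact hhq) A hA a b u' hb0 hRu' a K hK
  obtain ⟨gb', Nb', hgb', PBb'⟩ := pole_bound α β m q hnz hm hsum hprop (reverse h) h0'
    (by rw [hdeg']; exact hdeg) (by rw [hdeg']; exact hhq) A hA a b u' hb0 hRu' b K hK
  obtain ⟨N, hNa, hNb, hNa', hNb'⟩ : ∃ N, Na ≤ N ∧ Nb ≤ N ∧ Na' ≤ N ∧ Nb' ≤ N :=
    ⟨Na + Nb + Na' + Nb', by omega, by omega, by omega, by omega⟩
  have hfin : ∀ k : ℕ, 0 < k → {R : RatFunc ℂ | Sol α β m q h k R ∧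
      R.num.natDegree ≤ N + N ∧ R.denom.natDegree ≤ N + N}.Finite := fun k hk =>
    finite_sol_bdd α β m q 1 hnz le_rfl hm hsum hprop h h0 hdeg hhq k hk (N + N)
  choose dep hdep0 hdep using exists_dependence
  set T : ℕ → Finset (RatFunc ℂ) := fun k =>
    if hk : 0 < k then (hfin k hk).toFinset else ∅ with hT
  refine surface_gen α β m q 1 hnz le_rfl hm hsum hprop h h0 hdeg hhq A hA u v a b hb0 Z hZ hRu
    hrel (ga * gb * (ga' * gb'))
    (mul_ne_zero (mul_ne_zero hga hgb) (mul_ne_zero hga' hgb'))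
    (∏ k ∈ K, ∏ R' ∈ T k, dep R' (algebraMap ℂ[X] (RatFunc ℂ) (X ^ k)))
    (Finset.prod_ne_zero_iff.mpr fun k _ => Finset.prod_ne_zero_iff.mpr fun R' _ =>
      hdep0 _ _) ?_
  intro k Ψ hk hLaur hΨb hΨg hΨu hsol
  rw [map_mul, map_mul, map_mul] at hΨg
  have hg1 := left_ne_zero_of_mul hΨg
  have hg2 := right_ne_zero_of_mul hΨg
  obtain ⟨k₁, f, hf, hkf, hdvd, R₀, hR₀⟩ := hLP k _ hk hsol
  have hk₁ : 0 < k₁ := by
    rcases Nat.eq_zero_or_pos k₁ with h' | h'
    · subst h'; rw [mul_zero] at hkf; omega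
    · exact h'
  subst hkf
  rw [hR₀] at hsol
  have hdesc := Sol.descend hq hf hk₁ hh hsol
  have hmemK : q * k₁ ∈ K := by
    rw [hKdef, Finset.mem_image]
    exact ⟨k₁, Nat.mem_divisors.mpr ⟨hdvd, hB.ne'⟩, rfl⟩
  set R₁ := psi q hq R₀ with hR₁
  have hpq : ∀ W : RatFunc ℂ, W ≠ 0 → psi q hq W ≠ 0 := fun W hW =>
    (_root_.map_ne_zero (psi q hq)).mpr hW
  have hrv : ∀ W : RatFunc ℂ, W ≠ 0 → rev W ≠ 0 := fun W hW =>
    (_root_.map_ne_zero rev).mpr hW
  have hXk : psi q hq (algebraMap ℂ[X] (RatFunc ℂ) (X ^ (f * k₁)))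
      = algebraMap ℂ[X] (RatFunc ℂ) (X ^ (f * (q * k₁))) := by
    rw [psi_algebraMap]
    congr 1
    rw [map_pow, expand_X, ← pow_mul]
    congr 1
    ring
  have hu1 : ((psi q hq).comp Ψ) (u : A) = algebraMap ℂ[X] (RatFunc ℂ) (X ^ (f * (q * k₁))) := by
    rw [AlgHom.comp_apply, hΨu, hXk]
  have hR1 : ((psi q hq).comp Ψ) a / ((psi q hq).comp Ψ) b = psi f hf R₁ := by
    rw [AlgHom.comp_apply, AlgHom.comp_apply, ← map_div₀, hR₀, hR₁, psi_psi]
  have hPB : ∀ x : A, ∃ e, PB (((psi q hq).comp Ψ) x) e := fun x =>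
    PB_of_mem (psi_mem_Laur q hq (hLaur x))
  have hPB' : ∀ x : A, ∃ e, PB ((rev.comp ((psi q hq).comp Ψ)) x) e := fun x =>
    PB_of_mem (rev_mem_Laur (psi_mem_Laur q hq (hLaur x)))
  have hu2 : (rev.comp ((psi q hq).comp Ψ)) u'
      = algebraMap ℂ[X] (RatFunc ℂ) (X ^ (f * (q * k₁))) := by
    have h1 : (rev.comp ((psi q hq).comp Ψ)) u' * (rev.comp ((psi q hq).comp Ψ)) (u : A) = 1 := by
      rw [← map_mul, hu', Units.inv_mul, map_one]
    rw [AlgHom.comp_apply rev _ (u : A), hu1, map_pow, map_pow, rev_X, inv_pow] at h1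
    rw [map_pow]
    have h2 : (algebraMap ℂ[X] (RatFunc ℂ) X) ^ (f * (q * k₁)) ≠ 0 := pow_ne_zero _ ratX_ne
    field_simp at h1
    exact h1
  have hR2 : (rev.comp ((psi q hq).comp Ψ)) a / (rev.comp ((psi q hq).comp Ψ)) b
      = psi f hf (rev R₁) := by
    rw [AlgHom.comp_apply rev, AlgHom.comp_apply rev, ← map_div₀, hR1, rev_psi]
  have hS2 : Sol α β m q (reverse h) (q * k₁) (rev R₁) := Sol.rev (Dvd.intro _ rfl) hdesc
  have p1 := (PBa ((psi q hq).comp Ψ) f hf (q * k₁) R₁ hmemK hdesc (hpq _ hΨb)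
    (hpq _ (left_ne_zero_of_mul hg1)) hu1 hR1 (hPB a)).mono (Nat.mul_le_mul_left f hNa)
  have p2 := (PBb ((psi q hq).comp Ψ) f hf (q * k₁) R₁ hmemK hdesc (hpq _ hΨb)
    (hpq _ (right_ne_zero_of_mul hg1)) hu1 hR1 (hPB b)).mono (Nat.mul_le_mul_left f hNb)
  have p3 := (PBa' (rev.comp ((psi q hq).comp Ψ)) f hf (q * k₁) (rev R₁) hmemK hS2
    (hrv _ (hpq _ hΨb)) (hrv _ (hpq _ (left_ne_zero_of_mul hg2))) hu2 hR2 (hPB' a)).mono
      (Nat.mul_le_mul_left f hNa')
  have p4 := (PBb' (rev.comp ((psi q hq).comp Ψ)) f hf (q * k₁) (rev R₁) hmemK hS2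
    (hrv _ (hpq _ hΨb)) (hrv _ (hpq _ (right_ne_zero_of_mul hg2))) hu2 hR2 (hPB' b)).mono
      (Nat.mul_le_mul_left f hNb')
  obtain ⟨wa, hwa, hwad⟩ := degree_of_PB p1 p3
  obtain ⟨wb, hwb, hwbd⟩ := degree_of_PB p2 p4
  have hXN : algebraMap ℂ[X] (RatFunc ℂ) (X ^ (f * N)) ≠ 0 :=
    RatFunc.algebraMap_ne_zero (pow_ne_zero _ X_ne_zero)
  have hb1 : ((psi q hq).comp Ψ) b ≠ 0 := hpq _ hΨb
  have hwb0 : wb ≠ 0 := by
    rintro rfl
    rw [map_zero] at hwb
    exact mul_ne_zero hb1 hXN hwb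
  have hdegs := natDegree_le_of_ratio f hf R₁ wa wb hwb0 (N + N) (Nat.zero_le _) (by
      rw [← hR1, ← hwa, ← hwb]
      field_simp) (by rw [mul_add]; exact hwad) (by rw [mul_add]; exact hwbd)
  have hmem : R₁ ∈ T (q * k₁) := by
    rw [hT]
    simp only [Nat.mul_pos hq hk₁, dif_pos]
    exact (hfin (q * k₁) (Nat.mul_pos hq hk₁)).mem_toFinset.mpr ⟨hdesc, hdegs⟩
  set P₁ := dep R₁ (algebraMap ℂ[X] (RatFunc ℂ) (X ^ (q * k₁))) with hP₁
  have h1 : MvPolynomial.aeval ![psi f hf R₁, algebraMap ℂ[X] (RatFunc ℂ) (X ^ (f * (q * k₁)))] P₁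
      = 0 := by
    rw [psi_aeval, hP₁, hdep, map_zero]
  have h2 : psi q hq (MvPolynomial.aeval ![Ψ a / Ψ b,
      algebraMap ℂ[X] (RatFunc ℂ) (X ^ (f * k₁))] P₁) = 0 := by
    rw [← psi_aeval, ← h1]
    congr 2
    · funext i
      fin_cases i
      · simp only [Fin.zero_eta, Matrix.cons_val_zero]
        rw [hR₀, hR₁, psi_psi]
      · simp only [Fin.mk_one, Matrix.cons_val_one, Matrix.cons_val_fin_one]
        congr 2
        ring
  have h3 := (_root_.map_eq_zero (psi q hq)).mp h2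
  rw [map_prod]
  apply Finset.prod_eq_zero hmemK
  rw [map_prod]
  exact Finset.prod_eq_zero hmem h3

end Pool.Agent.LangEll
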