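import Pool.Agent.LangEll.ZeroEst
import Pool.Agent.LangSuper.Laurent

/-! Bounds for poles of functions along solutions (helper file). -/

set_option linter.unusedSectionVars false
set_option linter.unusedSimpArgs false
set_option linter.unusedVariables false
set_option maxHeartbeats 400000

open Polynomial Filter

namespace Pool.Agent.LangEll

open Pool.Agent.LangSuper

/-- The pole at the origin has order at most `M` and there is no other finite pole. -/
def PB (W : RatFunc ℂ) (M : ℕ) : Prop :=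
  ∃ w : ℂ[X], W * algebraMap ℂ[X] (RatFunc ℂ) (X ^ M) = algebraMap ℂ[X] (RatFunc ℂ) w

theorem PB.mono {W : RatFunc ℂ} {M M' : ℕ} (h : PB W M) (hM : M ≤ M') : PB W M' := by
  obtain ⟨w, hw⟩ := h
  refine ⟨w * X ^ (M' - M), ?_⟩
  have e : (X : ℂ[X]) ^ M' = X ^ M * X ^ (M' - M) := by rw [← pow_add]; congr 1; omega
  rw [e, map_mul, map_mul, ← hw]
  ring

/-- The algebraic pole bound. -/
theorem pole_alg (d : ℕ) (Cf : ℕ → ℂ[X]) (W : RatFunc ℂ) (M : ℕ)
    (hrel : ∑ i ∈ Finset.range (d + 1), algebraMap ℂ[X] (RatFunc ℂ) (Cf i) * W ^ i = 0)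
    (hCd : ¬ X ^ M ∣ Cf d) (hW : ∃ e, PB W e) : PB W M := by
  classical
  obtain ⟨e, he, hmin⟩ : ∃ e, PB W e ∧ ∀ e' < e, ¬ PB W e' :=
    ⟨Nat.find hW, Nat.find_spec hW, fun e' he' => Nat.find_min hW he'⟩
  by_cases heM : e ≤ M
  · exact he.mono heM
  exfalso
  push Not at heM
  obtain ⟨w, hw⟩ := he
  have hXw : ¬ X ∣ w := by
    rintro ⟨w', hw'⟩
    apply hmin (e - 1) (by omega)
    refine ⟨w', ?_⟩
    have hX : algebraMap ℂ[X] (RatFunc ℂ) X ≠ 0 := RatFunc.algebraMap_ne_zero X_ne_zero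
    apply mul_right_cancel₀ hX
    rw [mul_assoc, ← map_mul, ← pow_succ, Nat.sub_add_cancel (by omega), hw, hw', ← map_mul,
      mul_comm]
  have h1 : ∑ i ∈ Finset.range (d + 1), Cf i * w ^ i * X ^ (e * (d - i)) = 0 := by
    apply RatFunc.algebraMap_injective ℂ
    have h2 := congrArg (· * algebraMap ℂ[X] (RatFunc ℂ) (X ^ (e * d))) hrel
    simp only [zero_mul] at h2
    rw [map_zero, ← h2, Finset.sum_mul, map_sum]
    refine Finset.sum_congr rfl fun i hi => ?_
    rw [Finset.mem_range] at hi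
    have e1 : (X : ℂ[X]) ^ (e * d) = (X ^ e) ^ i * X ^ (e * (d - i)) := by
      rw [← pow_mul, ← pow_add]
      congr 1
      rw [← mul_add]
      congr 1
      omega
    have e2 : algebraMap ℂ[X] (RatFunc ℂ) ((X ^ e) ^ i)
        = (algebraMap ℂ[X] (RatFunc ℂ) (X ^ e)) ^ i := map_pow _ _ _
    have e3 : algebraMap ℂ[X] (RatFunc ℂ) (w ^ i)
        = (W * algebraMap ℂ[X] (RatFunc ℂ) (X ^ e)) ^ i := by rw [map_pow, hw]
    rw [e1, map_mul, map_mul, map_mul, e2, e3, mul_pow]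
    ring
  rw [Finset.sum_range_succ, Nat.sub_self, mul_zero, pow_zero, mul_one] at h1
  have h2 : X ^ e ∣ Cf d * w ^ d := by
    have h3 : Cf d * w ^ d = -∑ i ∈ Finset.range d, Cf i * w ^ i * X ^ (e * (d - i)) := by
      linear_combination h1
    rw [h3, dvd_neg]
    apply Finset.dvd_sum
    intro i hi
    rw [Finset.mem_range] at hi
    apply Dvd.dvd.mul_left
    apply pow_dvd_pow
    exact Nat.le_mul_of_pos_right _ (by omega)
  have h3 : X ^ e ∣ Cf d := by
    have hc : IsCoprime (X ^ e : ℂ[X]) (w ^ d) := by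
      apply IsCoprime.pow
      exact (prime_X.irreducible.coprime_iff_not_dvd).mpr hXw
    exact hc.dvd_of_dvd_mul_right h2
  exact hCd ((pow_dvd_pow X heM.le).trans h3)

theorem not_dvd_expand (f N : ℕ) (hf : 0 < f) (p : ℂ[X]) (h : ¬ X ^ N ∣ p) :
    ¬ X ^ (f * N) ∣ expand ℂ f p := by
  intro h1
  apply h
  rw [X_pow_dvd_iff] at h1 ⊢
  intro j hj
  have h2 := h1 (j * f) (by rw [mul_comm f N]; exact Nat.mul_lt_mul_of_pos_right hj hf)
  rwa [coeff_expand_mul hf] at h2

section Rel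

theorem aeval_finSucc {n : ℕ} {E : Type} [Field E] [Algebra ℂ E] (w : E) (f : Fin n → E)
    (P : MvPolynomial (Fin (n + 1)) ℂ) :
    MvPolynomial.aeval (Fin.cons w f : Fin (n + 1) → E) P
      = (MvPolynomial.finSuccEquiv ℂ n P).eval₂ (MvPolynomial.aeval f : _ →ₐ[ℂ] E).toRingHom w := by
  induction P using MvPolynomial.induction_on with
  | C a =>
    rw [MvPolynomial.aeval_C]
    have : MvPolynomial.finSuccEquiv ℂ n (MvPolynomial.C a) = C (MvPolynomial.C a) := by
      rw [← MvPolynomial.algebraMap_eq, AlgEquiv.commutes]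
      rfl
    rw [this, eval₂_C]
    change _ = MvPolynomial.aeval f (MvPolynomial.C a)
    rw [MvPolynomial.aeval_C]
  | add p q hp hq => rw [map_add, map_add, eval₂_add, hp, hq]
  | mul_X p i hp =>
    rw [map_mul, map_mul, eval₂_mul, hp, MvPolynomial.aeval_X]
    congr 1
    refine Fin.cases ?_ (fun j => ?_) i
    · rw [MvPolynomial.finSuccEquiv_X_zero, eval₂_X, Fin.cons_zero]
    · rw [MvPolynomial.finSuccEquiv_X_succ, eval₂_C, Fin.cons_succ]
      change _ = MvPolynomial.aeval f (MvPolynomial.X j)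
      rw [MvPolynomial.aeval_X]

/-- The relation of an element with two algebraically independent elements. -/
theorem rel_data (A : Type) [CommRing A] [IsDomain A] [Algebra ℂ A]
    (hA : Algebra.trdeg ℂ A = 2) (a b u : A) (hb : b ≠ 0)
    (hRu : AlgebraicIndependent ℂ ![algebraMap A (FractionRing A) a / algebraMap A (FractionRing A) b,
      algebraMap A (FractionRing A) u]) (x : A) :
    ∃ (Q : (MvPolynomial (Fin 2) ℂ)[X]) (g : A), Q ≠ 0 ∧ g ≠ 0 ∧ ∀ (Ψ : A →ₐ[ℂ] RatFunc ℂ),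
      Ψ b ≠ 0 →
      Q.eval₂ (MvPolynomial.aeval ![Ψ a / Ψ b, Ψ u] : _ →ₐ[ℂ] RatFunc ℂ).toRingHom (Ψ x) = 0 ∧
      (Ψ g ≠ 0 → MvPolynomial.aeval ![Ψ a / Ψ b, Ψ u] Q.leadingCoeff ≠ 0) := by
  set F := FractionRing A with hF
  have hinj : Function.Injective (algebraMap A F) := IsFractionRing.injective A F
  have hbF : algebraMap A F b ≠ 0 := (map_ne_zero_iff _ hinj).mpr hb
  -- dependence of x, R, u
  have hdep : ¬ AlgebraicIndependent ℂ ![algebraMap A F x, algebraMap A F a / algebraMap A F b,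
      algebraMap A F u] := by
    intro hind
    have h1 := hind.cardinalMk_le_trdeg
    have h2 : Algebra.trdeg ℂ F = 2 := by
      have h3 : Algebra.IsAlgebraic A F := IsLocalization.isAlgebraic F (nonZeroDivisors A)
      have h4 : Algebra.trdeg ℂ A + Algebra.trdeg A F = Algebra.trdeg ℂ F := trdeg_add_eq ℂ A
      rw [← h4, hA, trdeg_eq_zero, add_zero]
    rw [h2] at h1
    simp at h1
    norm_num at h1
  rw [algebraicIndependent_iff] at hdep
  push Not at hdep
  obtain ⟨P, hP, hP0⟩ := hdep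
  set Q := MvPolynomial.finSuccEquiv ℂ 2 P with hQ
  have hQ0 : Q ≠ 0 := (map_ne_zero_iff _ (MvPolynomial.finSuccEquiv ℂ 2).injective).mpr hP0
  set lc := Q.leadingCoeff with hlc
  have hlc0 : lc ≠ 0 := leadingCoeff_ne_zero.mpr hQ0
  obtain ⟨N₁, P', hP'⟩ := clear P
  obtain ⟨N₂, lc', hlc'⟩ := clear lc
  -- the function g
  have key₂ : ∀ (E : Type) [Field E] [Algebra ℂ E] (Ψ : A →ₐ[ℂ] E), Ψ b ≠ 0 →
      Ψ (MvPolynomial.aeval (fun o : Option (Fin 2) => o.elim b ![a, u * b]) lc')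
        = Ψ b ^ N₂ * MvPolynomial.aeval ![Ψ a / Ψ b, Ψ u] lc := by
    intro E _ _ Ψ hΨ
    rw [MvPolynomial.comp_aeval_apply]
    have e1 : (fun o : Option (Fin 2) => Ψ (o.elim b ![a, u * b]))
        = fun o : Option (Fin 2) => o.elim (Ψ b) ![Ψ a, Ψ u * Ψ b] := by
      funext o
      rcases o with _ | i
      · rfl
      · fin_cases i
        · rfl
        · simp
    rw [e1, hlc' E _ _ hΨ]
    congr 3
    funext i
    fin_cases i
    · rfl
    · simp [hΨ]
  have key₁ : ∀ (E : Type) [Field E] [Algebra ℂ E] (Ψ : A →ₐ[ℂ] E), Ψ b ≠ 0 →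
      Ψ (MvPolynomial.aeval (fun o : Option (Fin 3) => o.elim b ![x * b, a, u * b]) P')
        = Ψ b ^ N₁ * MvPolynomial.aeval ![Ψ x, Ψ a / Ψ b, Ψ u] P := by
    intro E _ _ Ψ hΨ
    rw [MvPolynomial.comp_aeval_apply]
    have e1 : (fun o : Option (Fin 3) => Ψ (o.elim b ![x * b, a, u * b]))
        = fun o : Option (Fin 3) => o.elim (Ψ b) ![Ψ x * Ψ b, Ψ a, Ψ u * Ψ b] := by
      funext o
      rcases o with _ | i
      · rfl
      · fin_cases i
        · simp
        · rfl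
        · simp
    rw [e1, hP' E _ _ hΨ]
    congr 3
    funext i
    fin_cases i
    · simp [hΨ]
    · rfl
    · simp [hΨ]
  let toF : A →ₐ[ℂ] F := IsScalarTower.toAlgHom ℂ A F
  have htoF : ∀ y, toF y = algebraMap A F y := fun y => rfl
  have hPA : MvPolynomial.aeval (fun o : Option (Fin 3) => o.elim b ![x * b, a, u * b]) P' = 0 := by
    apply hinj
    have h1 := key₁ F toF hbF
    rw [htoF, htoF, htoF, htoF, htoF, hP, mul_zero] at h1
    rw [h1, map_zero]
  refine ⟨Q, MvPolynomial.aeval (fun o : Option (Fin 2) => o.elim b ![a, u * b]) lc', hQ0, ?_, ?_⟩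
  · intro h0
    have h1 := key₂ F toF hbF
    rw [h0, map_zero, htoF, htoF, htoF] at h1
    have h2 := (mul_eq_zero.mp h1.symm).resolve_left (pow_ne_zero _ hbF)
    exact hlc0 ((algebraicIndependent_iff.mp hRu) lc h2)
  · intro Ψ hΨb
    have h1 := key₁ (RatFunc ℂ) Ψ hΨb
    rw [hPA, map_zero] at h1
    have h2 := (mul_eq_zero.mp h1.symm).resolve_left (pow_ne_zero _ hΨb)
    constructor
    · have e1 : ![Ψ x, Ψ a / Ψ b, Ψ u]
          = (Fin.cons (Ψ x) ![Ψ a / Ψ b, Ψ u] : Fin 3 → RatFunc ℂ) := by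
        funext i
        refine Fin.cases rfl (fun j => ?_) i
        rw [Fin.cons_succ]
        fin_cases j <;> rfl
      rw [e1, aeval_finSucc] at h2
      exact h2
    · intro hg h3
      apply hg
      rw [key₂ (RatFunc ℂ) Ψ hΨb, h3, mul_zero]

/-- Specialisation of the second variable to `X ^ k`. -/
noncomputable def spec (k : ℕ) : MvPolynomial (Fin 2) ℂ →ₐ[ℂ] ℂ[X][X] :=
  MvPolynomial.aeval ![X, C (X ^ k)]

theorem spec_eval₂ (k : ℕ) (p : MvPolynomial (Fin 2) ℂ) (R : RatFunc ℂ) :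
    (spec k p).eval₂ (algebraMap ℂ[X] (RatFunc ℂ)) R
      = MvPolynomial.aeval ![R, algebraMap ℂ[X] (RatFunc ℂ) (X ^ k)] p := by
  have : ((eval₂RingHom (algebraMap ℂ[X] (RatFunc ℂ)) R).comp (spec k).toRingHom)
      = (MvPolynomial.aeval ![R, algebraMap ℂ[X] (RatFunc ℂ) (X ^ k)] :
        MvPolynomial (Fin 2) ℂ →ₐ[ℂ] RatFunc ℂ).toRingHom := by
    apply MvPolynomial.ringHom_ext
    · intro r
      change eval₂ (algebraMap ℂ[X] (RatFunc ℂ)) R (spec k (MvPolynomial.C r))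
        = MvPolynomial.aeval ![R, algebraMap ℂ[X] (RatFunc ℂ) (X ^ k)] (MvPolynomial.C r)
      rw [spec, MvPolynomial.aeval_C, MvPolynomial.aeval_C]
      have : algebraMap ℂ ℂ[X][X] r = C (C r) := rfl
      rw [this, eval₂_C, RatFunc.algebraMap_C, RatFunc.algebraMap_eq_C]
    · intro i
      change eval₂ (algebraMap ℂ[X] (RatFunc ℂ)) R (spec k (MvPolynomial.X i))
        = MvPolynomial.aeval ![R, algebraMap ℂ[X] (RatFunc ℂ) (X ^ k)] (MvPolynomial.X i)
      rw [spec, MvPolynomial.aeval_X, MvPolynomial.aeval_X]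
      fin_cases i
      · simp
      · simp
  exact congrArg (fun φ => φ p) this

theorem spec_injective (k : ℕ) (hk : 0 < k) : Function.Injective (spec k) := by
  have h1 : AlgebraicIndependent ℂ (fun _ : Fin 1 => (X ^ k : ℂ[X])) := by
    rw [algebraicIndependent_unique_type_iff]
    refine Polynomial.transcendental _ ?_ ?_
    · rw [natDegree_X_pow]
      exact hk.ne'
    · rw [(monic_X_pow k).leadingCoeff]
      exact one_mem _
  have h2 : (spec k).toRingHom = (mapRingHom (MvPolynomial.aeval (fun _ : Fin 1 => (X ^ k : ℂ[X])) :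
      MvPolynomial (Fin 1) ℂ →ₐ[ℂ] ℂ[X]).toRingHom).comp
        (MvPolynomial.finSuccEquiv ℂ 1).toAlgHom.toRingHom := by
    apply MvPolynomial.ringHom_ext
    · intro r
      change spec k (MvPolynomial.C r) = Polynomial.map _ (MvPolynomial.finSuccEquiv ℂ 1
        (MvPolynomial.C r))
      have : MvPolynomial.finSuccEquiv ℂ 1 (MvPolynomial.C r) = C (MvPolynomial.C r) := by
        rw [← MvPolynomial.algebraMap_eq, AlgEquiv.commutes]
        rfl
      rw [spec, MvPolynomial.aeval_C, this, Polynomial.map_C]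
      change C (C r) = C (MvPolynomial.aeval _ (MvPolynomial.C r))
      rw [MvPolynomial.aeval_C]
      rfl
    · intro i
      change spec k (MvPolynomial.X i) = Polynomial.map _ (MvPolynomial.finSuccEquiv ℂ 1
        (MvPolynomial.X i))
      rw [spec, MvPolynomial.aeval_X]
      refine Fin.cases ?_ (fun j => ?_) i
      · rw [MvPolynomial.finSuccEquiv_X_zero, Polynomial.map_X]
        rfl
      · rw [MvPolynomial.finSuccEquiv_X_succ, Polynomial.map_C]
        change _ = C (MvPolynomial.aeval _ (MvPolynomial.X j))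
        rw [MvPolynomial.aeval_X]
        fin_cases j
        rfl
  have h3 : Function.Injective (spec k).toRingHom := by
    rw [h2]
    exact (Polynomial.map_injective _ h1).comp (MvPolynomial.finSuccEquiv ℂ 1).injective
  exact h3

end Rel

section Bound

variable {ι : Type*} [Fintype ι]

theorem psi_aeval (f : ℕ) (hf : 0 < f) (k : ℕ) (R : RatFunc ℂ) (p : MvPolynomial (Fin 2) ℂ) :
    MvPolynomial.aeval ![psi f hf R, algebraMap ℂ[X] (RatFunc ℂ) (X ^ (f * k))] p
      = psi f hf (MvPolynomial.aeval ![R, algebraMap ℂ[X] (RatFunc ℂ) (X ^ k)] p) := by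
  rw [MvPolynomial.comp_aeval_apply]
  congr 2
  funext i
  fin_cases i
  · rfl
  · simp only [Fin.mk_one, Matrix.cons_val_one, Matrix.cons_val_fin_one]
    rw [psi_algebraMap]
    congr 1
    rw [map_pow, expand_X, ← pow_mul]

/-- The pole bound. -/
theorem pole_bound (α β : ι → ℂ) (m : ι → ℕ) (q : ℕ) (hnz : ∀ i, α i ≠ 0 ∨ β i ≠ 0)
    (hm : ∀ i, 0 < m i ∧ m i < q) (hsum : ∑ i, m i = q * 2)
    (hprop : ∀ i j, i ≠ j → α i * β j ≠ α j * β i)
    (h : ℂ[X]) (h0 : h.coeff 0 ≠ 0) (hdeg : 0 < h.natDegree) (hhq : h.natDegree < q)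
    (A : Type) [CommRing A] [IsDomain A] [Algebra ℂ A]
    (hA : Algebra.trdeg ℂ A = 2) (a b u : A) (hb : b ≠ 0)
    (hRu : AlgebraicIndependent ℂ ![algebraMap A (FractionRing A) a / algebraMap A (FractionRing A) b,
      algebraMap A (FractionRing A) u]) (x : A) (K : Finset ℕ) (hK : ∀ k ∈ K, 0 < k) :
    ∃ (g : A) (N : ℕ), g ≠ 0 ∧ ∀ (Ψ : A →ₐ[ℂ] RatFunc ℂ) (f : ℕ) (hf : 0 < f) (k : ℕ)
      (R₁ : RatFunc ℂ), k ∈ K → Sol α β m q h k R₁ → Ψ b ≠ 0 → Ψ g ≠ 0 →
      Ψ u = algebraMap ℂ[X] (RatFunc ℂ) (X ^ (f * k)) → Ψ a / Ψ b = psi f hf R₁ →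
      (∃ e, PB (Ψ x) e) → PB (Ψ x) (f * N) := by
  classical
  obtain ⟨Q, g, hQ, hg, hrel⟩ := rel_data A hA a b u hb hRu x
  set d := Q.natDegree with hd
  set D : ℕ → ℕ := fun k => (Finset.range (d + 1)).sup fun i => (spec k (Q.coeff i)).natDegree
    with hD
  have hDle : ∀ k, ∀ i ∈ Finset.range (d + 1), (spec k (Q.coeff i)).natDegree ≤ D k := fun k i hi =>
    Finset.le_sup (f := fun i => (spec k (Q.coeff i)).natDegree) hi
  have hZ : ∀ k, 0 < k → ∃ N : ℕ, ∀ R : RatFunc ℂ, Sol α β m q h k R →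
      hev (D k) (spec k (Q.coeff d)) R.num R.denom = 0 ∨
        ¬ X ^ N ∣ hev (D k) (spec k (Q.coeff d)) R.num R.denom := by
    intro k hk
    refine zero_estimate α β m q hnz hm hsum hprop h h0 hdeg hhq k hk (D k) _ ?_
      (hDle k d (Finset.mem_range.mpr (Nat.lt_succ_self d)))
    exact (map_ne_zero_iff _ (spec_injective k hk)).mpr (leadingCoeff_ne_zero.mpr hQ)
  choose! N hN using hZ
  refine ⟨g, K.sup N, hg, ?_⟩
  intro Ψ f hf k R₁ hk hR₁ hΨb hΨg hΨu hΨR hL
  obtain ⟨h1, h2⟩ := hrel Ψ hΨb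
  have h3 := h2 hΨg
  rw [hΨR, hΨu] at h1 h3
  rw [psi_aeval] at h3
  have hy : algebraMap ℂ[X] (RatFunc ℂ) R₁.denom ≠ 0 := RatFunc.algebraMap_ne_zero R₁.denom_ne_zero
  have hev1 : ∀ i ∈ Finset.range (d + 1), algebraMap ℂ[X] (RatFunc ℂ)
      (expand ℂ f (hev (D k) (spec k (Q.coeff i)) R₁.num R₁.denom))
      = (psi f hf (algebraMap ℂ[X] (RatFunc ℂ) R₁.denom)) ^ (D k) *
        psi f hf (MvPolynomial.aeval ![R₁, algebraMap ℂ[X] (RatFunc ℂ) (X ^ k)] (Q.coeff i)) := by
    intro i hi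
    rw [← psi_algebraMap f hf, hev_eq (D k) _ (hDle k i hi) (algebraMap ℂ[X] (RatFunc ℂ)) _ _ R₁
      (ratnum_eq R₁).symm, map_mul, map_pow, spec_eval₂]
  refine pole_alg d (fun i => expand ℂ f (hev (D k) (spec k (Q.coeff i)) R₁.num R₁.denom)) (Ψ x)
    (f * K.sup N) ?_ ?_ hL
  · rw [eval₂_eq_sum_range] at h1
    have h4 := congrArg ((psi f hf (algebraMap ℂ[X] (RatFunc ℂ) R₁.denom)) ^ (D k) * ·) h1
    simp only [mul_zero] at h4
    rw [← h4, Finset.mul_sum]
    refine Finset.sum_congr rfl fun i hi => ?_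
    rw [hev1 i hi, ← psi_aeval]
    change _ = _ * (MvPolynomial.aeval _ (Q.coeff i) * Ψ x ^ i)
    ring
  · apply not_dvd_expand f _ hf
    have hne : hev (D k) (spec k (Q.coeff d)) R₁.num R₁.denom ≠ 0 := by
      intro h5
      have h6 := hev1 d (Finset.mem_range.mpr (Nat.lt_succ_self d))
      rw [h5, map_zero, map_zero] at h6
      have h7 : (psi f hf (algebraMap ℂ[X] (RatFunc ℂ) R₁.denom)) ^ (D k) ≠ 0 :=
        pow_ne_zero _ ((_root_.map_ne_zero (psi f hf)).mpr hy)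
      exact h3 ((mul_eq_zero.mp h6.symm).resolve_left h7)
    intro h8
    exact ((hN k (hK k hk) R₁ hR₁).resolve_left hne)
      ((pow_dvd_pow X (Finset.le_sup (f := N) hk)).trans h8)

end Bound

end Pool.Agent.LangEll
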