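import Pool.Agent.LangEll.Pole

/-! The inversion of the coordinate (helper file). -/

set_option linter.unusedSectionVars false
set_option linter.unusedSimpArgs false
set_option linter.unusedVariables false
set_option maxHeartbeats 400000

open Polynomial Filter

namespace Pool.Agent.LangEll

open Pool.Agent.LangSuper

theorem ratX_ne : algebraMap ℂ[X] (RatFunc ℂ) X ≠ 0 := RatFunc.algebraMap_ne_zero X_ne_zero

theorem transcendental_ratX : Transcendental ℂ (algebraMap ℂ[X] (RatFunc ℂ) X) := by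
  have := transcendental_mono 1 one_ne_zero 1 one_pos
  simpa using this

theorem transcendental_ratX_inv : Transcendental ℂ (algebraMap ℂ[X] (RatFunc ℂ) X)⁻¹ := by
  intro h
  have h2 := h.inv
  rw [inv_inv] at h2
  exact transcendental_ratX h2

theorem aeval_inv_injective :
    Function.Injective (aeval (algebraMap ℂ[X] (RatFunc ℂ) X)⁻¹ : ℂ[X] →ₐ[ℂ] RatFunc ℂ) :=
  transcendental_iff_injective.mp transcendental_ratX_inv

/-- The inversion of the coordinate. -/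
noncomputable def rev : RatFunc ℂ →ₐ[ℂ] RatFunc ℂ :=
  RatFunc.liftAlgHom (aeval (algebraMap ℂ[X] (RatFunc ℂ) X)⁻¹)
    (nonZeroDivisors_le_comap_nonZeroDivisors_of_injective _ aeval_inv_injective)

theorem rev_algebraMap (p : ℂ[X]) :
    rev (algebraMap ℂ[X] (RatFunc ℂ) p) = aeval (algebraMap ℂ[X] (RatFunc ℂ) X)⁻¹ p := by
  rw [rev]
  have := RatFunc.liftAlgHom_apply_div
    (φ := (aeval (algebraMap ℂ[X] (RatFunc ℂ) X)⁻¹ : ℂ[X] →ₐ[ℂ] RatFunc ℂ))
    (nonZeroDivisors_le_comap_nonZeroDivisors_of_injective _ aeval_inv_injective) p 1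
  simpa using this

theorem rev_X : rev (algebraMap ℂ[X] (RatFunc ℂ) X) = (algebraMap ℂ[X] (RatFunc ℂ) X)⁻¹ := by
  rw [rev_algebraMap, aeval_X]

theorem algHom_ext_X {E : Type} [Field E] [Algebra ℂ E] (φ ψ : RatFunc ℂ →ₐ[ℂ] E)
    (h : φ (algebraMap ℂ[X] (RatFunc ℂ) X) = ψ (algebraMap ℂ[X] (RatFunc ℂ) X)) : φ = ψ := by
  apply LangSuper.algHom_ext'
  intro p
  have : (φ.comp (IsScalarTower.toAlgHom ℂ ℂ[X] (RatFunc ℂ)))
      = (ψ.comp (IsScalarTower.toAlgHom ℂ ℂ[X] (RatFunc ℂ))) := by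
    apply Polynomial.algHom_ext
    exact h
  exact congrArg (fun χ => χ p) this

theorem rev_rev (R : RatFunc ℂ) : rev (rev R) = R := by
  have : rev.comp rev = AlgHom.id ℂ (RatFunc ℂ) := by
    apply algHom_ext_X
    rw [AlgHom.comp_apply, rev_X, map_inv₀, rev_X, inv_inv]
    rfl
  exact congrArg (fun χ => χ R) this

theorem psi_X (f : ℕ) (hf : 0 < f) : psi f hf (algebraMap ℂ[X] (RatFunc ℂ) X)
    = (algebraMap ℂ[X] (RatFunc ℂ) X) ^ f := by
  rw [psi_algebraMap, expand_X, map_pow]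

theorem rev_psi (f : ℕ) (hf : 0 < f) (R : RatFunc ℂ) :
    rev (psi f hf R) = psi f hf (rev R) := by
  have : rev.comp (psi f hf) = (psi f hf).comp rev := by
    apply algHom_ext_X
    rw [AlgHom.comp_apply, AlgHom.comp_apply, psi_X, map_pow, rev_X, map_inv₀, psi_X, inv_pow]
  exact congrArg (fun χ => χ R) this

theorem psi_psi (f g : ℕ) (hf : 0 < f) (hg : 0 < g) (R : RatFunc ℂ) :
    psi f hf (psi g hg R) = psi g hg (psi f hf R) := by
  have : (psi f hf).comp (psi g hg) = (psi g hg).comp (psi (K := ℂ) f hf) := by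
    apply algHom_ext_X
    rw [AlgHom.comp_apply, AlgHom.comp_apply, psi_X, psi_X, map_pow, map_pow, psi_X, psi_X,
      ← pow_mul, ← pow_mul, mul_comm]
  exact congrArg (fun χ => χ R) this

/-- Substitution of the inverse into a polynomial. -/
theorem aeval_inv_eq (U : RatFunc ℂ) (hU : U ≠ 0) (p : ℂ[X]) :
    aeval U⁻¹ p * U ^ p.natDegree = aeval U (reverse p) := by
  let _ : Invertible U⁻¹ := invertibleOfNonzero (inv_ne_zero hU)
  have h := eval₂_reverse_mul_pow (algebraMap ℂ (RatFunc ℂ)) U⁻¹ p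
  rw [invOf_eq_inv, inv_inv] at h
  rw [aeval_def, aeval_def, ← h, mul_assoc, ← mul_pow, inv_mul_cancel₀ hU, one_pow, mul_one]

theorem expand_eq_aeval (k : ℕ) (p : ℂ[X]) :
    algebraMap ℂ[X] (RatFunc ℂ) (expand ℂ k p)
      = aeval ((algebraMap ℂ[X] (RatFunc ℂ) X) ^ k) p := by
  rw [← map_pow, aeval_algebraMap_apply, ← expand_aeval]
  congr 1
  simp

variable {ι : Type*} [Fintype ι]

/-- The inversion of a solution. -/
theorem Sol.rev {α β : ι → ℂ} {m : ι → ℕ} {q : ℕ} {h : ℂ[X]} {k : ℕ} (hq : q ∣ k)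
    {R : RatFunc ℂ} (hR : Sol α β m q h k R) : Sol α β m q (reverse h) k (rev R) := by
  obtain ⟨k', rfl⟩ := hq
  obtain ⟨Z, hZ, hrel⟩ := hR
  set x := algebraMap ℂ[X] (RatFunc ℂ) X with hx
  have hx0 : x ≠ 0 := ratX_ne
  refine ⟨LangEll.rev Z * ((x ^ k')⁻¹) ^ h.natDegree, ?_, ?_⟩
  · exact mul_ne_zero ((_root_.map_ne_zero LangEll.rev).mpr hZ)
      (pow_ne_zero _ (inv_ne_zero (pow_ne_zero _ hx0)))
  · have h1 := congrArg LangEll.rev hrel
    have hC : ∀ z : ℂ, LangEll.rev (RatFunc.C z) = RatFunc.C z := by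
      intro z
      rw [← RatFunc.algebraMap_eq_C, AlgHom.commutes]
    rw [map_prod, map_mul, map_pow, expand_eq_aeval, ← hx] at h1
    have h2 : LangEll.rev (aeval (x ^ (q * k')) h) = aeval ((x ^ (q * k'))⁻¹) h := by
      rw [← Polynomial.aeval_algHom_apply, map_pow, hx, rev_X, inv_pow]
    have h3 := aeval_inv_eq (x ^ (q * k')) (pow_ne_zero _ hx0) h
    rw [expand_eq_aeval, ← hx, ← h3]
    have h4 : ∏ i, LangEll.rev ((RatFunc.C (α i) * R + RatFunc.C (β i)) ^ m i)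
        = ∏ i, (RatFunc.C (α i) * LangEll.rev R + RatFunc.C (β i)) ^ m i := by
      refine Finset.prod_congr rfl fun i _ => ?_
      rw [map_pow, map_add, map_mul, hC, hC]
    rw [h4, h2] at h1
    rw [h1, mul_pow]
    have h5 : (x ^ (q * k')) ^ h.natDegree * (((x ^ k')⁻¹) ^ h.natDegree) ^ q = 1 := by
      rw [← pow_mul, ← pow_mul, inv_pow, ← pow_mul]
      have : q * k' * h.natDegree = k' * (h.natDegree * q) := by ring
      rw [this, mul_inv_cancel₀ (pow_ne_zero _ hx0)]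
    linear_combination (-(aeval ((x ^ (q * k'))⁻¹) h * LangEll.rev Z ^ q)) * h5

/-- The Laurent polynomials inside the rational functions. -/
noncomputable def Laur : Subalgebra ℂ (RatFunc ℂ) :=
  Algebra.adjoin ℂ {algebraMap ℂ[X] (RatFunc ℂ) X, (algebraMap ℂ[X] (RatFunc ℂ) X)⁻¹}

theorem X_mem_Laur : algebraMap ℂ[X] (RatFunc ℂ) X ∈ Laur :=
  Algebra.subset_adjoin (Or.inl rfl)

theorem X_inv_mem_Laur : (algebraMap ℂ[X] (RatFunc ℂ) X)⁻¹ ∈ Laur :=
  Algebra.subset_adjoin (Or.inr rfl)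

theorem zpow_mem_Laur (n : ℤ) : (algebraMap ℂ[X] (RatFunc ℂ) X) ^ n ∈ Laur := by
  rcases Int.eq_nat_or_neg n with ⟨k, rfl | rfl⟩
  · rw [zpow_natCast]
    exact pow_mem X_mem_Laur k
  · rw [zpow_neg, zpow_natCast, ← inv_pow]
    exact pow_mem X_inv_mem_Laur k

theorem PB_of_mem {W : RatFunc ℂ} (hW : W ∈ Laur) : ∃ e, PB W e := by
  induction hW using Algebra.adjoin_induction with
  | mem x hx =>
    rcases hx with rfl | rfl
    · exact ⟨0, X, by simp⟩
    · refine ⟨1, 1, ?_⟩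
      rw [pow_one, map_one, inv_mul_cancel₀ ratX_ne]
  | algebraMap r =>
    refine ⟨0, C r, ?_⟩
    rw [pow_zero, map_one, mul_one, RatFunc.algebraMap_C, RatFunc.algebraMap_eq_C]
  | add x y _ _ hx hy =>
    obtain ⟨e₁, h₁⟩ := hx
    obtain ⟨e₂, h₂⟩ := hy
    obtain ⟨w₁, h₁⟩ := h₁.mono (le_max_left e₁ e₂)
    obtain ⟨w₂, h₂⟩ := h₂.mono (le_max_right e₁ e₂)
    refine ⟨max e₁ e₂, w₁ + w₂, ?_⟩
    rw [add_mul, h₁, h₂, map_add]
  | mul x y _ _ hx hy =>
    obtain ⟨e₁, w₁, h₁⟩ := hx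
    obtain ⟨e₂, w₂, h₂⟩ := hy
    refine ⟨e₁ + e₂, w₁ * w₂, ?_⟩
    rw [pow_add, map_mul, map_mul, ← h₁, ← h₂]
    ring

theorem map_mem_Laur (φ : RatFunc ℂ →ₐ[ℂ] RatFunc ℂ)
    (h1 : φ (algebraMap ℂ[X] (RatFunc ℂ) X) ∈ Laur)
    (h2 : (φ (algebraMap ℂ[X] (RatFunc ℂ) X))⁻¹ ∈ Laur) {W : RatFunc ℂ} (hW : W ∈ Laur) :
    φ W ∈ Laur := by
  have h3 : Laur ≤ Laur.comap φ := by
    rw [Laur, Algebra.adjoin_le_iff]
    rintro x (rfl | rfl)
    · exact h1
    · change φ _ ∈ Laur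
      rw [map_inv₀]
      exact h2
  exact h3 hW

theorem rev_mem_Laur {W : RatFunc ℂ} (hW : W ∈ Laur) : rev W ∈ Laur := by
  apply map_mem_Laur rev _ _ hW
  · rw [rev_X]; exact X_inv_mem_Laur
  · rw [rev_X, inv_inv]; exact X_mem_Laur

theorem psi_mem_Laur (f : ℕ) (hf : 0 < f) {W : RatFunc ℂ} (hW : W ∈ Laur) :
    psi f hf W ∈ Laur := by
  apply map_mem_Laur (psi f hf) _ _ hW
  · rw [psi_X]; exact pow_mem X_mem_Laur f
  · rw [psi_X, ← inv_pow]; exact pow_mem X_inv_mem_Laur f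

/-- A Laurent polynomial with bounded poles at both ends. -/
theorem degree_of_PB {W : RatFunc ℂ} {M M' : ℕ} (h1 : PB W M) (h2 : PB (rev W) M') :
    ∃ w : ℂ[X], W * algebraMap ℂ[X] (RatFunc ℂ) (X ^ M) = algebraMap ℂ[X] (RatFunc ℂ) w ∧
      w.natDegree ≤ M + M' := by
  obtain ⟨w, hw⟩ := h1
  refine ⟨w, hw, ?_⟩
  obtain ⟨w', hw'⟩ := h2
  set x := algebraMap ℂ[X] (RatFunc ℂ) X with hx
  have hx0 : x ≠ 0 := ratX_ne
  by_contra hcon
  push Not at hcon
  have hw0 : w ≠ 0 := by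
    rintro rfl
    simp at hcon
  have h3 := congrArg rev hw
  rw [map_mul, map_pow, map_pow, rev_X, ← hx, rev_algebraMap, ← hx] at h3
  have h4 := aeval_inv_eq x hx0 w
  rw [← h3] at h4
  have h5 : aeval x (reverse w) = algebraMap ℂ[X] (RatFunc ℂ) (reverse w) := by
    rw [hx, aeval_algebraMap_apply]
    simp
  rw [h5] at h4
  have h6 : reverse w = w' * X ^ (w.natDegree - (M + M')) := by
    apply RatFunc.algebraMap_injective ℂ
    rw [map_mul, map_pow, ← hw', ← h4, map_pow, ← hx, inv_pow]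
    have e : x ^ w.natDegree = x ^ M * x ^ M' * x ^ (w.natDegree - (M + M')) := by
      rw [← pow_add, ← pow_add]
      congr 1
      omega
    rw [e]
    have := pow_ne_zero M hx0
    field_simp
  have h7 := congrArg (fun p => p.coeff 0) h6
  simp only [coeff_zero_reverse, mul_coeff_zero, coeff_X_pow] at h7
  rw [if_neg (by omega), mul_zero] at h7
  exact hw0 (leadingCoeff_eq_zero.mp h7)

end Pool.Agent.LangEll
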