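import Pool.Agent.LangSuper.Finite
import Pool.Agent.LangSuper.Unique

/-! Power series over an ultrapower which are algebraic over the polynomials (helper file). -/

set_option linter.unusedSectionVars false
set_option linter.unusedSimpArgs false
set_option linter.unusedVariables false
set_option maxHeartbeats 400000

open Polynomial Filter

namespace Pool.Agent.LangEll

open Pool.Agent.LangSuper

section Der

variable {S : Type*} [CommRing S]

/-- A map satisfying additivity and the Leibniz rule. -/
structure IsDer' (D : S → S) : Prop where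
  add : ∀ f g, D (f + g) = D f + D g
  mul : ∀ f g, D (f * g) = f * D g + g * D f

theorem IsDer'.zero {D : S → S} (hD : IsDer' D) : D 0 = 0 := by
  have := hD.add 0 0
  rw [add_zero] at this
  exact left_eq_add.mp this

theorem IsDer'.one {D : S → S} (hD : IsDer' D) : D 1 = 0 := by
  have := hD.mul 1 1
  rw [mul_one, one_mul] at this
  exact left_eq_add.mp this

theorem IsDer'.neg {D : S → S} (hD : IsDer' D) (f : S) : D (-f) = -D f := by
  have := hD.add f (-f)
  rw [add_neg_cancel, hD.zero] at this
  linear_combination -this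

theorem IsDer'.pow {D : S → S} (hD : IsDer' D) (f : S) (n : ℕ) :
    D (f ^ (n + 1)) = ((n + 1 : ℕ) : S) * f ^ n * D f := by
  induction n with
  | zero => simp
  | succ n ih =>
    rw [pow_succ f (n + 1), hD.mul, ih]
    push_cast
    ring

theorem IsDer'.pow_eq_zero {D : S → S} (hD : IsDer' D) (f : S) (hf : D f = 0) (n : ℕ) :
    D (f ^ n) = 0 := by
  rcases Nat.eq_zero_or_pos n with h | h
  · subst h; rw [pow_zero, hD.one]
  · obtain ⟨k, rfl⟩ : ∃ k, n = k + 1 := ⟨n - 1, by omega⟩
    rw [hD.pow, hf, mul_zero]

theorem IsDer'.eval₂ {D : S → S} (hD : IsDer' D) {R : Type*} [CommRing R] (φ : R →+* S)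
    (hφ : ∀ a, D (φ a) = 0) (ξ : S) (p : R[X]) :
    D (p.eval₂ φ ξ) = (derivative p).eval₂ φ ξ * D ξ := by
  induction p using Polynomial.induction_on' with
  | add p q hp hq =>
    rw [Polynomial.eval₂_add, hD.add, hp, hq, derivative_add, Polynomial.eval₂_add]
    ring
  | monomial n a =>
    rw [Polynomial.eval₂_monomial, hD.mul, hφ, mul_zero, add_zero, derivative_monomial,
      Polynomial.eval₂_monomial]
    rcases Nat.eq_zero_or_pos n with h | h
    · subst h
      rw [pow_zero, hD.one, mul_zero]
      simp
    · obtain ⟨k, rfl⟩ : ∃ k, n = k + 1 := ⟨n - 1, by omega⟩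
      rw [hD.pow, Nat.add_sub_cancel, map_mul, map_natCast]
      ring

end Der

section SerMap

variable {L : Type*} [CommRing L]

/-- Coefficientwise application of a map to a power series. -/
noncomputable def serMap (d : L → L) (f : PowerSeries L) : PowerSeries L :=
  PowerSeries.mk fun n => d (PowerSeries.coeff n f)

theorem coeff_serMap (d : L → L) (f : PowerSeries L) (n : ℕ) :
    PowerSeries.coeff n (serMap d f) = d (PowerSeries.coeff n f) := by
  rw [serMap, PowerSeries.coeff_mk]

theorem add_zero' (d : L → L) (hadd : ∀ a b, d (a + b) = d a + d b) : d 0 = 0 := by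
  have := hadd 0 0
  rw [add_zero] at this
  exact left_eq_add.mp this

theorem add_sum' (d : L → L) (hadd : ∀ a b, d (a + b) = d a + d b) {κ : Type*} (s : Finset κ)
    (f : κ → L) : d (∑ i ∈ s, f i) = ∑ i ∈ s, d (f i) := by
  classical
  induction s using Finset.induction with
  | empty => simpa using add_zero' d hadd
  | insert a s has ih => rw [Finset.sum_insert has, Finset.sum_insert has, hadd, ih]

theorem isDer_serMap (d : L → L) (hadd : ∀ a b, d (a + b) = d a + d b)
    (hmul : ∀ a b, d (a * b) = a * d b + b * d a) : IsDer' (serMap d) := by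
  constructor
  · intro f g
    ext n
    rw [coeff_serMap, map_add, map_add, coeff_serMap, coeff_serMap, hadd]
  · intro f g
    ext n
    rw [coeff_serMap, PowerSeries.coeff_mul, add_sum' d hadd, map_add, mul_comm g,
      PowerSeries.coeff_mul, PowerSeries.coeff_mul, ← Finset.sum_add_distrib]
    refine Finset.sum_congr rfl fun x _ => ?_
    rw [coeff_serMap, coeff_serMap, hmul]
    ring

/-- The Euler operator on power series. -/
noncomputable def thetaS (f : PowerSeries L) : PowerSeries L :=
  PowerSeries.mk fun n => (n : L) * PowerSeries.coeff n f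

theorem coeff_thetaS (f : PowerSeries L) (n : ℕ) :
    PowerSeries.coeff n (thetaS f) = (n : L) * PowerSeries.coeff n f := by
  rw [thetaS, PowerSeries.coeff_mk]

theorem thetaS_eq (f : PowerSeries L) :
    thetaS f = PowerSeries.X * PowerSeries.derivative L f := by
  ext n
  rw [coeff_thetaS]
  rcases n with _ | n
  · simp
  · rw [PowerSeries.coeff_succ_X_mul, PowerSeries.coeff_derivative]
    push_cast
    ring

theorem map_thetaS {L' : Type*} [CommRing L'] (φ : L →+* L') (f : PowerSeries L) :
    PowerSeries.map φ (thetaS f) = thetaS (PowerSeries.map φ f) := by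
  ext n
  rw [PowerSeries.coeff_map, coeff_thetaS, coeff_thetaS, PowerSeries.coeff_map, map_mul,
    map_natCast]

theorem serMap_thetaS (d : L → L) (hadd : ∀ a b, d (a + b) = d a + d b)
    (hmul : ∀ a b, d (a * b) = a * d b + b * d a) (f : PowerSeries L) :
    serMap d (thetaS f) = thetaS (serMap d f) := by
  have hone : d 1 = 0 := by
    have := hmul 1 1
    rw [mul_one, one_mul] at this
    exact left_eq_add.mp this
  have hnat : ∀ n : ℕ, d (n : L) = 0 := by
    intro n
    induction n with
    | zero => simpa using add_zero' d hadd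
    | succ n ih => rw [Nat.cast_succ, hadd, ih, hone, add_zero]
  ext n
  rw [coeff_serMap, coeff_thetaS, coeff_thetaS, coeff_serMap, hmul, hnat, mul_zero, add_zero]

end SerMap

section Alg

variable {L : Type} [Field L] [Algebra ℂ L]

/-- Complex polynomials as power series over `L`. -/
noncomputable def cps (L : Type) [Field L] [Algebra ℂ L] : ℂ[X] →+* PowerSeries L :=
  (coeToPowerSeries.ringHom).comp (mapRingHom (algebraMap ℂ L))

theorem coeff_cps (p : ℂ[X]) (n : ℕ) :
    PowerSeries.coeff n (cps L p) = algebraMap ℂ L (p.coeff n) := by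
  change PowerSeries.coeff n ((p.map (algebraMap ℂ L) : L[X]) : PowerSeries L) = _
  rw [Polynomial.coeff_coe, coeff_map]

theorem cps_injective : Function.Injective (cps L) := by
  intro p q h
  ext n
  have := congrArg (PowerSeries.coeff n) h
  rw [coeff_cps, coeff_cps] at this
  exact (algebraMap ℂ L).injective this

theorem serMap_cps (d : L → L) (hconst : ∀ a : ℂ, d (algebraMap ℂ L a) = 0) (p : ℂ[X]) :
    serMap d (cps L p) = 0 := by
  ext n
  rw [coeff_serMap, coeff_cps, hconst, map_zero]

theorem const_of_derivations (c : L) (hc : ∀ d : L → L, (∀ a b, d (a + b) = d a + d b) →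
      (∀ a b, d (a * b) = a * d b + b * d a) → (∀ a : ℂ, d (algebraMap ℂ L a) = 0) → d c = 0) :
    ∃ a : ℂ, algebraMap ℂ L a = c := by
  apply mem_range_of_algebraic
  by_contra htr
  obtain ⟨d, h1, h2, h3, h4⟩ := exists_derivation ℂ L c htr
  rw [hc d h1 h2 h3] at h4
  exact zero_ne_one h4

/-- A power series killed by all derivations has complex coefficients. -/
theorem lift_series (ξ : PowerSeries L) (hξ : ∀ d : L → L, (∀ a b, d (a + b) = d a + d b) →
      (∀ a b, d (a * b) = a * d b + b * d a) → (∀ a : ℂ, d (algebraMap ℂ L a) = 0) →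
      serMap d ξ = 0) : ∃ ξ₀ : PowerSeries ℂ, ξ = PowerSeries.map (algebraMap ℂ L) ξ₀ := by
  have h1 : ∀ n, ∃ a : ℂ, algebraMap ℂ L a = PowerSeries.coeff n ξ := by
    intro n
    apply const_of_derivations
    intro d h1 h2 h3
    have h4 := coeff_serMap d ξ n
    rw [hξ d h1 h2 h3, map_zero] at h4
    exact h4.symm
  choose a ha using h1
  refine ⟨PowerSeries.mk a, ?_⟩
  ext n
  rw [PowerSeries.coeff_map, PowerSeries.coeff_mk, ha]

/-- An algebraic power series is killed by all derivations. -/
theorem serMap_of_algebraic (ξ : PowerSeries L) (c : ℂ[X][X]) (hc : c ≠ 0)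
    (h : c.eval₂ (cps L) ξ = 0) (d : L → L) (hadd : ∀ a b, d (a + b) = d a + d b)
    (hmul : ∀ a b, d (a * b) = a * d b + b * d a)
    (hconst : ∀ a : ℂ, d (algebraMap ℂ L a) = 0) : serMap d ξ = 0 := by
  classical
  obtain ⟨n, hn⟩ : ∃ n, c.natDegree = n := ⟨_, rfl⟩
  induction n using Nat.strong_induction_on generalizing c with
  | _ n ih =>
    have hD := isDer_serMap d hadd hmul
    have h1 := hD.eval₂ (cps L) (fun a => serMap_cps d hconst a) ξ c
    rw [h, hD.zero] at h1
    by_cases h2 : (derivative c).eval₂ (cps L) ξ = 0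
    · have hn0 : n ≠ 0 := by
        rintro rfl
        rw [eq_C_of_natDegree_eq_zero hn, eval₂_C] at h
        have h3 := cps_injective (L := L) (h.trans (map_zero _).symm)
        apply hc
        rw [eq_C_of_natDegree_eq_zero hn, h3, C_0]
      have hc' : derivative c ≠ 0 := by
        intro h3
        have := derivative_eq_zero.mp h3
        omega
      have hlt : (derivative c).natDegree < n := by
        rw [← hn]
        exact natDegree_derivative_lt (by omega)
      exact ih _ hlt (derivative c) hc' h2 rfl
    · exact (mul_eq_zero.mp h1.symm).resolve_left h2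

end Alg

end Pool.Agent.LangEll
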