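import Pool.Agent.LangEll.Rev
import Pool.Agent.LangSuper.Surface

/-! The theorem on surfaces for solutions which come from the surface (helper file). -/

set_option linter.unusedSectionVars false
set_option linter.unusedSimpArgs false
set_option linter.unusedVariables false
set_option maxHeartbeats 1000000

open Polynomial

namespace Pool.Agent.LangEll

open Pool.Agent.LangSuper

variable {ι : Type*} [Fintype ι]

/-- The passage from a relation for solutions which come from the surface. -/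
theorem surface_gen (α β : ι → ℂ) (m : ι → ℕ) (q M : ℕ)
    (hnz : ∀ i, α i ≠ 0 ∨ β i ≠ 0) (hM : 1 ≤ M)
    (hm : ∀ i, 0 < m i ∧ m i < q)
    (hsum : ∑ i, m i = q * (M + 1))
    (hprop : ∀ i j, i ≠ j → α i * β j ≠ α j * β i)
    (h : ℂ[X]) (h0 : h.coeff 0 ≠ 0) (hdeg : 0 < h.natDegree) (hhq : h.natDegree < q)
    (A : Type) [CommRing A] [IsDomain A] [Algebra ℂ A] [hft : Algebra.FiniteType ℂ A]
    (hA : Algebra.trdeg ℂ A = 2) (u v : Aˣ) (a b : A) (hb0 : b ≠ 0) (Z : FractionRing A)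
    (hZ : Z ≠ 0)
    (hRu : AlgebraicIndependent ℂ ![algebraMap A (FractionRing A) a /
      algebraMap A (FractionRing A) b, algebraMap A (FractionRing A) u])
    (hrel : ∏ i, (algebraMap ℂ (FractionRing A) (α i) * (algebraMap A (FractionRing A) a /
      algebraMap A (FractionRing A) b)
        + algebraMap ℂ (FractionRing A) (β i)) ^ m i
      = algebraMap A (FractionRing A) (v * aeval (u : A) h) * Z ^ q)
    (g₁ : A) (hg₁ : g₁ ≠ 0) (P : MvPolynomial (Fin 2) ℂ) (hP0 : P ≠ 0)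
    (hP : ∀ (k : ℕ) (Ψ : A →ₐ[ℂ] RatFunc ℂ), 0 < k → (∀ x, Ψ x ∈ Laur) → Ψ b ≠ 0 → Ψ g₁ ≠ 0 →
      Ψ u = algebraMap ℂ[X] (RatFunc ℂ) (X ^ k) → Sol α β m q h k (Ψ a / Ψ b) →
      MvPolynomial.aeval ![Ψ a / Ψ b, algebraMap ℂ[X] (RatFunc ℂ) (X ^ k)] P = 0) :
    ∃ g : A, g ≠ 0 ∧ ∀ φ : A →ₐ[ℂ] LaurentPolynomial ℂ,
      (∃ x, ∀ c, φ x ≠ LaurentPolynomial.C c) → φ g = 0 := by
  classical
  have hq : 0 < q := by omega
  have hinj : Function.Injective (algebraMap A (FractionRing A)) :=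
    IsFractionRing.injective A (FractionRing A)
  obtain ⟨c, d, hd, hZ'⟩ := IsFractionRing.div_surjective (A := A) Z
  have hd0 : d ≠ 0 := nonZeroDivisors.ne_zero hd
  have hbF : algebraMap A (FractionRing A) b ≠ 0 := (map_ne_zero_iff _ hinj).mpr hb0
  have hdF : algebraMap A (FractionRing A) d ≠ 0 := (map_ne_zero_iff _ hinj).mpr hd0
  have hc0 : c ≠ 0 := by
    rintro rfl
    rw [map_zero, zero_div] at hZ'
    exact hZ hZ'.symm
  subst hZ'
  -- the relation in A
  have hrelA : (∏ i, (algebraMap ℂ A (α i) * a + algebraMap ℂ A (β i) * b) ^ m i) * d ^ q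
      = (v * aeval (u : A) h) * c ^ q * b ^ (q * (M + 1)) := by
    apply hinj
    have h1 : algebraMap A (FractionRing A)
        (∏ i, (algebraMap ℂ A (α i) * a + algebraMap ℂ A (β i) * b) ^ m i)
        = (∏ i, (algebraMap ℂ (FractionRing A) (α i) *
            (algebraMap A (FractionRing A) a / algebraMap A (FractionRing A) b)
            + algebraMap ℂ (FractionRing A) (β i)) ^ m i) *
          algebraMap A (FractionRing A) b ^ (∑ i, m i) := by
      rw [map_prod, ← Finset.prod_pow_eq_pow_sum, ← Finset.prod_mul_distrib]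
      refine Finset.prod_congr rfl fun i _ => ?_
      rw [map_pow, ← mul_pow, map_add, map_mul, map_mul,
        ← IsScalarTower.algebraMap_apply, ← IsScalarTower.algebraMap_apply]
      congr 1
      field_simp
    rw [map_mul, h1, hrel, hsum]
    simp only [map_mul, map_pow, div_pow]
    field_simp
  -- nonvanishing functions
  have hind := algebraicIndependent_iff.mp hRu
  have hut : Transcendental ℂ (u : A) := by
    intro halg
    obtain ⟨p, hp, hp'⟩ := halg
    have h1 := hRu.transcendental (i := 1)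
    apply h1
    refine ⟨p, hp, ?_⟩
    simp only [Matrix.cons_val_one, Matrix.cons_val_fin_one]
    rw [aeval_algebraMap_apply, hp', map_zero]
  have hhu : aeval (u : A) h ≠ 0 := by
    intro h1
    exact hut ⟨h, by rintro rfl; simp at h0, h1⟩
  obtain ⟨N, P', hP'⟩ := clear P
  have keyP : ∀ (E : Type) [Field E] [Algebra ℂ E] (Ψ : A →ₐ[ℂ] E), Ψ b ≠ 0 →
      Ψ (MvPolynomial.aeval (fun o : Option (Fin 2) => o.elim b ![a, (u : A) * b]) P')
        = Ψ b ^ N * MvPolynomial.aeval ![Ψ a / Ψ b, Ψ u] P := by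
    intro E _ _ Ψ hΨ
    rw [MvPolynomial.comp_aeval_apply]
    have e1 : (fun o : Option (Fin 2) => Ψ (o.elim b ![a, (u : A) * b]))
        = fun o : Option (Fin 2) => o.elim (Ψ b) ![Ψ a, Ψ u * Ψ b] := by
      funext o
      rcases o with _ | i
      · rfl
      · fin_cases i
        · rfl
        · simp
    rw [e1, hP' E _ _ hΨ]
    congr 3
    funext i
    fin_cases i
    · rfl
    · simp [hΨ]
  set gP : A := MvPolynomial.aeval (fun o : Option (Fin 2) => o.elim b ![a, (u : A) * b]) P'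
    with hgP
  have hgP0 : gP ≠ 0 := by
    intro h1
    have h2 := keyP (FractionRing A) (IsScalarTower.toAlgHom ℂ A (FractionRing A)) hbF
    rw [h1, map_zero] at h2
    have h3 := (mul_eq_zero.mp h2.symm).resolve_left (pow_ne_zero _ hbF)
    exact hP0 (hind P h3)
  -- generators
  obtain ⟨S, hS⟩ := hft.out
  choose gx hgx0 hgx using generic_data A hA a b u hb0 hRu
  refine ⟨(b * c * d) * (aeval (u : A) h * (gP * g₁) * ∏ x ∈ S, gx x), ?_, ?_⟩
  · refine mul_ne_zero (mul_ne_zero (mul_ne_zero hb0 hc0) hd0)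
      (mul_ne_zero (mul_ne_zero hhu (mul_ne_zero hgP0 hg₁)) ?_)
    exact Finset.prod_ne_zero_iff.mpr fun x _ => hgx0 x
  intro φ hφ
  by_contra hne
  -- the images of the units
  obtain ⟨γ, k, hγ, hφu⟩ := laurent_unit (Units.map φ.toRingHom.toMonoidHom u)
  obtain ⟨δ, j, hδ, hφv⟩ := laurent_unit (Units.map φ.toRingHom.toMonoidHom v)
  have hφu' : φ (u : A) = LaurentPolynomial.C γ * LaurentPolynomial.T k := hφu
  have hφv' : φ (v : A) = LaurentPolynomial.C δ * LaurentPolynomial.T j := hφv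
  -- general facts for a substitution
  have main : ∀ (w : (RatFunc ℂ)ˣ), Transcendental ℂ (w : RatFunc ℂ) →
      ∃ Ψ : A →ₐ[ℂ] RatFunc ℂ, (∀ x, Ψ x = LaurentPolynomial.eval₂ (algebraMap ℂ (RatFunc ℂ)) w
        (φ x)) ∧ Ψ b ≠ 0 ∧ Ψ c ≠ 0 ∧ Ψ d ≠ 0 ∧ Ψ (aeval (u : A) h) ≠ 0 ∧ (Ψ gP ≠ 0 ∧ Ψ g₁ ≠ 0) ∧
        (∀ x ∈ S, Ψ (gx x) ≠ 0) ∧
        Ψ (u : A) = RatFunc.C γ * ((w ^ k : (RatFunc ℂ)ˣ) : RatFunc ℂ) ∧
        Ψ (v : A) = RatFunc.C δ * ((w ^ j : (RatFunc ℂ)ˣ) : RatFunc ℂ) ∧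
        ∏ i, (RatFunc.C (α i) * (Ψ a / Ψ b) + RatFunc.C (β i)) ^ m i
          = Ψ v * aeval (Ψ (u : A)) h * (Ψ c / Ψ d) ^ q := by
    intro w hw
    let θ : LaurentPolynomial ℂ →ₐ[ℂ] RatFunc ℂ :=
      { LaurentPolynomial.eval₂ (algebraMap ℂ (RatFunc ℂ)) w with
        commutes' := fun r => by
          change LaurentPolynomial.eval₂ (algebraMap ℂ (RatFunc ℂ)) w
            (algebraMap ℂ (LaurentPolynomial ℂ) r) = _
          rw [← LaurentPolynomial.C_eq_algebraMap, LaurentPolynomial.eval₂_C] }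
    have hθ : Function.Injective θ := theta_injective' w hw
    set Ψ : A →ₐ[ℂ] RatFunc ℂ := θ.comp φ with hΨ
    have hΨne : Ψ ((b * c * d) * (aeval (u : A) h * (gP * g₁) * ∏ x ∈ S, gx x)) ≠ 0 := by
      rw [hΨ, AlgHom.comp_apply]
      exact (map_ne_zero_iff θ hθ).mpr hne
    rw [map_mul, map_mul, map_mul, map_mul, map_mul, map_prod] at hΨne
    have h1 := left_ne_zero_of_mul hΨne
    have h2 := right_ne_zero_of_mul hΨne
    have hΨd := right_ne_zero_of_mul h1
    have h3 := left_ne_zero_of_mul h1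
    have hΨb := left_ne_zero_of_mul h3
    have hΨc := right_ne_zero_of_mul h3
    have h4 := right_ne_zero_of_mul h2
    have h5 := left_ne_zero_of_mul h2
    have h5' := right_ne_zero_of_mul h5
    rw [map_mul] at h5'
    refine ⟨Ψ, fun x => rfl, hΨb, hΨc, hΨd, left_ne_zero_of_mul h5,
      ⟨left_ne_zero_of_mul h5', right_ne_zero_of_mul h5'⟩,
      fun x hx => Finset.prod_ne_zero_iff.mp h4 x hx, ?_, ?_, ?_⟩
    · rw [hΨ, AlgHom.comp_apply, hφu']
      change LaurentPolynomial.eval₂ (algebraMap ℂ (RatFunc ℂ)) w _ = _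
      rw [LaurentPolynomial.eval₂_C_mul_T, RatFunc.algebraMap_eq_C]
    · rw [hΨ, AlgHom.comp_apply, hφv']
      change LaurentPolynomial.eval₂ (algebraMap ℂ (RatFunc ℂ)) w _ = _
      rw [LaurentPolynomial.eval₂_C_mul_T, RatFunc.algebraMap_eq_C]
    · have h6 := congrArg Ψ hrelA
      rw [map_mul, map_mul, map_mul, map_mul, map_pow, map_pow, map_pow, map_prod] at h6
      have h7 : ∏ i, Ψ ((algebraMap ℂ A (α i) * a + algebraMap ℂ A (β i) * b) ^ m i)
          = (∏ i, (RatFunc.C (α i) * (Ψ a / Ψ b) + RatFunc.C (β i)) ^ m i) *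
            Ψ b ^ (q * (M + 1)) := by
        rw [← hsum, ← Finset.prod_pow_eq_pow_sum, ← Finset.prod_mul_distrib]
        refine Finset.prod_congr rfl fun i _ => ?_
        rw [map_pow, ← mul_pow, map_add, map_mul, map_mul, AlgHom.commutes, AlgHom.commutes,
          RatFunc.algebraMap_eq_C]
        congr 1
        field_simp
      rw [h7] at h6
      have h8 : Ψ (aeval (u : A) h) = aeval (Ψ (u : A)) h := by
        rw [← Polynomial.aeval_algHom_apply]
      rw [h8] at h6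
      have h9 : (∏ i, (RatFunc.C (α i) * (Ψ a / Ψ b) + RatFunc.C (β i)) ^ m i) * Ψ d ^ q
          = Ψ v * aeval (Ψ (u : A)) h * Ψ c ^ q := by
        apply mul_right_cancel₀ (pow_ne_zero (q * (M + 1)) hΨb)
        linear_combination h6
      rw [div_pow, mul_div_assoc', eq_div_iff (pow_ne_zero _ hΨd)]
      exact h9
  by_cases hk : k = 0
  · -- the image of `u` is constant
    subst hk
    have hX1 : algebraMap ℂ[X] (RatFunc ℂ) (C 1 * X ^ q) ≠ 0 :=
      RatFunc.algebraMap_ne_zero (mul_ne_zero (C_ne_zero.mpr one_ne_zero) (pow_ne_zero _ X_ne_zero))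
    set w : (RatFunc ℂ)ˣ := Units.mk0 _ hX1 with hw
    obtain ⟨Ψ, hΨ, hΨb, hΨc, hΨd, hΨh, hΨP, hΨx, hΨu, hΨv, hΨrel⟩ :=
      main w (transcendental_mono 1 one_ne_zero q hq)
    rw [zpow_zero, Units.val_one, mul_one] at hΨu
    have hhγ : aeval (Ψ (u : A)) h = RatFunc.C (eval γ h) := by
      rw [hΨu, ← RatFunc.algebraMap_eq_C, aeval_algebraMap_apply]
      rfl
    have hΨh' : Ψ (aeval (u : A) h) = aeval (Ψ (u : A)) h := by
      rw [← Polynomial.aeval_algHom_apply]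
    have hev : eval γ h ≠ 0 := by
      intro h1
      rw [hΨh', hhγ, h1, map_zero] at hΨh
      exact hΨh rfl
    obtain ⟨ρ, hρ⟩ := IsAlgClosed.exists_pow_nat_eq (δ * eval γ h) hq
    have hρ0 : ρ ≠ 0 := by
      rintro rfl
      rw [zero_pow hq.ne'] at hρ
      exact mul_ne_zero hδ hev hρ.symm
    have hXX : algebraMap ℂ[X] (RatFunc ℂ) X ≠ 0 := RatFunc.algebraMap_ne_zero X_ne_zero
    have hsol : Sol α β m q 1 1 (Ψ a / Ψ b) := by
      refine ⟨RatFunc.C ρ * (algebraMap ℂ[X] (RatFunc ℂ) X) ^ j * (Ψ c / Ψ d), ?_, ?_⟩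
      · refine mul_ne_zero (mul_ne_zero ?_ (zpow_ne_zero _ hXX)) (div_ne_zero hΨc hΨd)
        exact (_root_.map_ne_zero RatFunc.C).mpr hρ0
      · rw [hΨrel, hhγ, hΨv, map_one, map_one, one_mul, mul_pow, mul_pow, ← map_pow, hρ, map_mul,
          hw, Units.val_zpow_eq_zpow_val, Units.val_mk0, C_1, one_mul, map_pow, zpow_swap]
        ring
    obtain ⟨r, hr⟩ := const_of_sol_one α β m q M hnz hM hq hm hsum hprop _ hsol
    have hSc : ∀ x ∈ S, ∃ c : ℂ, φ x = LaurentPolynomial.C c := by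
      intro x hx
      obtain ⟨c', hc'⟩ := hgx x Ψ r γ hΨb hr hΨu (hΨx x hx)
      refine ⟨c', ?_⟩
      apply theta_injective' w (transcendental_mono 1 one_ne_zero q hq)
      rw [← hΨ, hc', LaurentPolynomial.eval₂_C, RatFunc.algebraMap_eq_C]
    have hall : ∀ x : A, ∃ c : ℂ, φ x = LaurentPolynomial.C c := by
      intro x
      have hx : x ∈ Algebra.adjoin ℂ (S : Set A) := by rw [hS]; trivial
      induction hx using Algebra.adjoin_induction with
      | mem x hx => exact hSc x hx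
      | algebraMap r =>
        exact ⟨r, by rw [AlgHom.commutes, LaurentPolynomial.C_eq_algebraMap]⟩
      | add x y _ _ hx hy =>
        obtain ⟨c₁, h₁⟩ := hx
        obtain ⟨c₂, h₂⟩ := hy
        exact ⟨c₁ + c₂, by rw [map_add, map_add, h₁, h₂]⟩
      | mul x y _ _ hx hy =>
        obtain ⟨c₁, h₁⟩ := hx
        obtain ⟨c₂, h₂⟩ := hy
        exact ⟨c₁ * c₂, by rw [map_mul, map_mul, h₁, h₂]⟩
    obtain ⟨x, hx⟩ := hφ
    obtain ⟨c', hc'⟩ := hall x
    exact hx c' hc'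
  · -- the image of `u` is not constant
    have hn : 0 < k.natAbs := Int.natAbs_pos.mpr hk
    obtain ⟨τ, hτ⟩ : ∃ τ : ℂ, γ * τ ^ k = 1 := by
      obtain ⟨τ₀, hτ₀⟩ := IsAlgClosed.exists_pow_nat_eq γ hn
      have hτ₀0 : τ₀ ≠ 0 := by
        rintro rfl
        rw [zero_pow hn.ne'] at hτ₀
        exact hγ hτ₀.symm
      rcases Int.natAbs_eq k with h1 | h1
      · refine ⟨τ₀⁻¹, ?_⟩
        rw [h1, zpow_natCast, inv_pow, hτ₀, mul_inv_cancel₀ hγ]
      · refine ⟨τ₀, ?_⟩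
        rw [h1, zpow_neg, zpow_natCast, hτ₀, mul_inv_cancel₀ hγ]
    have hτ0 : τ ≠ 0 := by
      rintro rfl
      rw [zero_zpow k hk, mul_zero] at hτ
      exact zero_ne_one hτ
    have hXX : algebraMap ℂ[X] (RatFunc ℂ) X ≠ 0 := RatFunc.algebraMap_ne_zero X_ne_zero
    -- the unit `w = τ X^(± q)`
    obtain ⟨w, ε, hw, hwtr, hε⟩ : ∃ (w : (RatFunc ℂ)ˣ) (ε : ℤ),
        (w : RatFunc ℂ) = RatFunc.C τ * ((algebraMap ℂ[X] (RatFunc ℂ) X) ^ ε) ^ q ∧
        Transcendental ℂ (w : RatFunc ℂ) ∧ ε * k = (k.natAbs : ℤ) := by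
      rcases Int.natAbs_eq k with h1 | h1
      · have hX1 : algebraMap ℂ[X] (RatFunc ℂ) (C τ * X ^ q) ≠ 0 :=
          RatFunc.algebraMap_ne_zero (mul_ne_zero (C_ne_zero.mpr hτ0) (pow_ne_zero _ X_ne_zero))
        refine ⟨Units.mk0 _ hX1, 1, ?_, transcendental_mono τ hτ0 q hq, by rw [one_mul]; exact h1⟩
        rw [Units.val_mk0, map_mul, map_pow, RatFunc.algebraMap_C, zpow_one]
      · have hX1 : algebraMap ℂ[X] (RatFunc ℂ) (C τ⁻¹ * X ^ q) ≠ 0 :=
          RatFunc.algebraMap_ne_zero (mul_ne_zero (C_ne_zero.mpr (inv_ne_zero hτ0))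
            (pow_ne_zero _ X_ne_zero))
        refine ⟨(Units.mk0 _ hX1)⁻¹, -1, ?_, ?_, by rw [neg_one_mul]; omega⟩
        · rw [Units.val_inv_eq_inv_val, Units.val_mk0, map_mul, map_pow, RatFunc.algebraMap_C,
            mul_inv, map_inv₀, inv_inv, zpow_neg_one, inv_pow]
        · rw [Units.val_inv_eq_inv_val, Units.val_mk0]
          intro halg
          apply transcendental_mono τ⁻¹ (inv_ne_zero hτ0) q hq
          have := halg.inv
          rwa [inv_inv] at this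
    obtain ⟨Ψ, hΨ, hΨb, hΨc, hΨd, hΨh, hΨP, hΨx, hΨu, hΨv, hΨrel⟩ := main w hwtr
    have hzC : ∀ (x : ℂ) (n : ℤ), (RatFunc.C x) ^ n = RatFunc.C (x ^ n) := fun x n =>
      (map_zpow₀ RatFunc.C x n).symm
    have hΨu' : Ψ (u : A) = algebraMap ℂ[X] (RatFunc ℂ) (X ^ (q * k.natAbs)) := by
      rw [hΨu, Units.val_zpow_eq_zpow_val, hw, mul_zpow, hzC, ← mul_assoc, ← map_mul, hτ, map_one,
        one_mul, zpow_swap, ← zpow_mul, hε, zpow_natCast, map_pow, ← pow_mul, mul_comm q]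
    obtain ⟨ρ, hρ⟩ := IsAlgClosed.exists_pow_nat_eq (δ * τ ^ j) hq
    have hρ0 : ρ ≠ 0 := by
      rintro rfl
      rw [zero_pow hq.ne'] at hρ
      exact mul_ne_zero hδ (zpow_ne_zero _ hτ0) hρ.symm
    have hsol : Sol α β m q h (q * k.natAbs) (Ψ a / Ψ b) := by
      refine ⟨RatFunc.C ρ * ((algebraMap ℂ[X] (RatFunc ℂ) X) ^ ε) ^ j * (Ψ c / Ψ d), ?_, ?_⟩
      · refine mul_ne_zero (mul_ne_zero ?_ (zpow_ne_zero _ (zpow_ne_zero _ hXX)))
          (div_ne_zero hΨc hΨd)
        exact (_root_.map_ne_zero RatFunc.C).mpr hρ0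
      · have e1 : aeval (Ψ (u : A)) h
            = algebraMap ℂ[X] (RatFunc ℂ) (expand ℂ (q * k.natAbs) h) := by
          rw [hΨu', aeval_algebraMap_apply]
          rfl
        have e2 : Ψ (v : A) = (RatFunc.C ρ * ((algebraMap ℂ[X] (RatFunc ℂ) X) ^ ε) ^ j) ^ q := by
          rw [hΨv, Units.val_zpow_eq_zpow_val, hw, mul_zpow, hzC, ← mul_assoc, ← map_mul, ← hρ,
            mul_pow, map_pow, zpow_swap]
        rw [hΨrel, e1, e2]
        ring
    have hLaur : ∀ x, Ψ x ∈ Laur := by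
      intro x
      rw [hΨ]
      have hwL : ∀ n : ℤ, ((w ^ n : (RatFunc ℂ)ˣ) : RatFunc ℂ) ∈ Laur := by
        intro n
        rw [Units.val_zpow_eq_zpow_val, hw, mul_zpow, hzC, ← zpow_natCast, ← zpow_mul, ← zpow_mul,
          ← RatFunc.algebraMap_eq_C]
        exact mul_mem (Subalgebra.algebraMap_mem _ _) (zpow_mem_Laur _)
      refine LaurentPolynomial.induction_on (φ x) ?_ ?_ ?_ ?_
      · intro z
        rw [LaurentPolynomial.eval₂_C]
        exact Subalgebra.algebraMap_mem _ _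
      · intro p p' hp hp'
        rw [map_add]
        exact add_mem hp hp'
      · intro n z _
        rw [LaurentPolynomial.eval₂_C_mul_T]
        exact mul_mem (Subalgebra.algebraMap_mem _ _) (hwL _)
      · intro n z _
        rw [LaurentPolynomial.eval₂_C_mul_T]
        exact mul_mem (Subalgebra.algebraMap_mem _ _) (hwL _)
    have h1 := hP _ Ψ (Nat.mul_pos hq hn) hLaur hΨb hΨP.2 hΨu' hsol
    have h2 := keyP (RatFunc ℂ) Ψ hΨb
    rw [hΨu', h1, mul_zero] at h2
    exact hΨP.1 h2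

end Pool.Agent.LangEll
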