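import Pool.Agent.LangEll.Ser

/-! A zero estimate for the solutions of a fixed level (helper file). -/

set_option linter.unusedSectionVars false
set_option linter.unusedSimpArgs false
set_option linter.unusedVariables false
set_option maxHeartbeats 400000

open Polynomial Filter

namespace Pool.Agent.LangEll

open Pool.Agent.LangSuper

section Fam

/-- Families of polynomials as power series. -/
noncomputable def cpf : ℂ[X] →+* PowerSeries (ℕ → ℂ) :=
  (coeToPowerSeries.ringHom).comp (mapRingHom (Pi.constRingHom ℕ ℂ))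

theorem coeff_cpf (p : ℂ[X]) (n : ℕ) :
    PowerSeries.coeff n (cpf p) = fun _ => p.coeff n := by
  change PowerSeries.coeff n ((p.map (Pi.constRingHom ℕ ℂ) : (ℕ → ℂ)[X]) : PowerSeries (ℕ → ℂ)) = _
  rw [Polynomial.coeff_coe, coeff_map]
  rfl

theorem map_uev_cpf (i : ℕ) (p : ℂ[X]) :
    PowerSeries.map (uev i) (cpf p) = (p : PowerSeries ℂ) := by
  ext n
  rw [PowerSeries.coeff_map, coeff_cpf, Polynomial.coeff_coe]
  rfl

theorem map_umk_cpf (p : ℂ[X]) : PowerSeries.map umk (cpf p) = cps UL p := by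
  ext n
  rw [PowerSeries.coeff_map, coeff_cpf, coeff_cps]
  rfl

theorem fam_ext (A B : PowerSeries (ℕ → ℂ))
    (h : ∀ i, PowerSeries.map (uev i) A = PowerSeries.map (uev i) B) : A = B := by
  ext n i
  have := congrArg (PowerSeries.coeff n) (h i)
  rw [PowerSeries.coeff_map, PowerSeries.coeff_map] at this
  exact this

/-- The family of power series. -/
noncomputable def fam (ξ : ℕ → PowerSeries ℂ) : PowerSeries (ℕ → ℂ) :=
  PowerSeries.mk fun j i => PowerSeries.coeff j (ξ i)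

theorem map_uev_fam (ξ : ℕ → PowerSeries ℂ) (i : ℕ) : PowerSeries.map (uev i) (fam ξ) = ξ i := by
  ext n
  rw [PowerSeries.coeff_map, fam, PowerSeries.coeff_mk]
  rfl

theorem eval₂_map_uev (ξ : ℕ → PowerSeries ℂ) (c : ℂ[X][X]) (i : ℕ) :
    PowerSeries.map (uev i) (c.eval₂ cpf (fam ξ))
      = c.eval₂ (coeToPowerSeries.ringHom) (ξ i) := by
  rw [Polynomial.hom_eval₂, map_uev_fam]
  congr 1
  ext p : 2
  · simp only [RingHom.comp_apply, map_uev_cpf]
    rfl
  · simp only [RingHom.comp_apply, map_uev_cpf]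
    rfl

theorem eval₂_map_umk (ξ : ℕ → PowerSeries ℂ) (c : ℂ[X][X]) :
    PowerSeries.map umk (c.eval₂ cpf (fam ξ))
      = c.eval₂ (cps UL) (PowerSeries.map umk (fam ξ)) := by
  rw [Polynomial.hom_eval₂]
  congr 1
  apply RingHom.ext
  intro p
  rw [RingHom.comp_apply, map_umk_cpf]

end Fam

section Ode

variable {ι : Type*} [Fintype ι]

/-- Homogeneous evaluation of a polynomial with polynomial coefficients. -/
noncomputable def hev (D : ℕ) (c : ℂ[X][X]) (x y : ℂ[X]) : ℂ[X] :=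
  ∑ i ∈ Finset.range (D + 1), c.coeff i * (x ^ i * y ^ (D - i))

theorem hev_eq (D : ℕ) (c : ℂ[X][X]) (hD : c.natDegree ≤ D) {S : Type*} [CommRing S]
    (φ : ℂ[X] →+* S) (x y : ℂ[X]) (ξ : S) (h : ξ * φ y = φ x) :
    φ (hev D c x y) = φ y ^ D * c.eval₂ φ ξ := by
  rw [hev, map_sum, Polynomial.eval₂_eq_sum_range' φ (Nat.lt_succ_of_le hD), Finset.mul_sum]
  refine Finset.sum_congr rfl fun i hi => ?_
  rw [Finset.mem_range, Nat.lt_succ_iff] at hi
  rw [map_mul, map_mul, map_pow, map_pow, ← h, mul_pow]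
  have : φ y ^ D = φ y ^ i * φ y ^ (D - i) := by rw [← pow_add]; congr 1; omega
  rw [this]
  ring

/-- The product of the linear forms. -/
noncomputable def bp (α β : ι → ℂ) (m : ι → ℕ) : ℂ[X][X] :=
  ∏ i, (C (C (α i)) * X + C (C (β i))) ^ m i

theorem bp_eval₂ (α β : ι → ℂ) (m : ι → ℕ) {S : Type*} [CommRing S] (φ : ℂ[X] →+* S) (ξ : S) :
    (bp α β m).eval₂ φ ξ = ∏ i, (φ (C (α i)) * ξ + φ (C (β i))) ^ m i := by
  rw [bp, eval₂_finsetProd]
  refine Finset.prod_congr rfl fun i _ => ?_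
  rw [eval₂_pow, eval₂_add, eval₂_mul, eval₂_C, eval₂_X, eval₂_C]

theorem isDer_thetaS : IsDer' (thetaS : PowerSeries ℂ → PowerSeries ℂ) := by
  constructor
  · intro f g
    rw [thetaS_eq, thetaS_eq, thetaS_eq, map_add]; ring
  · intro f g
    rw [thetaS_eq, thetaS_eq, thetaS_eq, Derivation.leibniz, smul_eq_mul, smul_eq_mul]; ring

theorem coe_eul (p : ℂ[X]) : ((eul p : ℂ[X]) : PowerSeries ℂ) = thetaS (p : PowerSeries ℂ) := by
  ext n
  rw [Polynomial.coeff_coe, coeff_eul, coeff_thetaS, Polynomial.coeff_coe]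

/-- The differential equation of a solution in terms of power series. -/
theorem ode_series (α β : ι → ℂ) (m : ι → ℕ) (q : ℕ) (hsum : ∑ i, m i = q * 2)
    (H x y G : ℂ[X]) (hy : y.coeff 0 ≠ 0)
    (hrel : H * wr x y ^ q = bform α β m x y * G ^ q) (ξ : PowerSeries ℂ)
    (hξ : ξ * (y : PowerSeries ℂ) = (x : PowerSeries ℂ)) :
    (H : PowerSeries ℂ) * (-thetaS ξ) ^ q
      = (bp α β m).eval₂ (coeToPowerSeries.ringHom) ξ * (G : PowerSeries ℂ) ^ q := by
  have hY : (y : PowerSeries ℂ) ≠ 0 := by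
    intro h
    apply hy
    rw [← Polynomial.coeff_coe, h, map_zero]
  have hW : ((wr x y : ℂ[X]) : PowerSeries ℂ) = -(y : PowerSeries ℂ) ^ 2 * thetaS ξ := by
    rw [wr]
    push_cast
    rw [coe_eul, coe_eul, ← hξ, isDer_thetaS.mul]
    ring
  have hB : ((bform α β m x y : ℂ[X]) : PowerSeries ℂ)
      = (y : PowerSeries ℂ) ^ (q * 2) * (bp α β m).eval₂ (coeToPowerSeries.ringHom) ξ := by
    rw [bp_eval₂, bform, ← hsum, ← Finset.prod_pow_eq_pow_sum, ← Finset.prod_mul_distrib]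
    have hc : ∀ p : ℂ[X], (p : PowerSeries ℂ) = coeToPowerSeries.ringHom p := fun _ => rfl
    rw [hc (∏ i, (C (α i) * x + C (β i) * y) ^ m i), map_prod]
    refine Finset.prod_congr rfl fun i _ => ?_
    rw [map_pow, ← mul_pow, map_add, map_mul, map_mul, ← hc x, ← hc y, ← hξ]
    congr 1
    ring
  have h1 := congrArg (fun p : ℂ[X] => (p : PowerSeries ℂ)) hrel
  simp only [Polynomial.coe_mul, Polynomial.coe_pow] at h1
  rw [hW, hB] at h1
  apply mul_left_cancel₀ (pow_ne_zero (q * 2) hY)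
  have h2 : (-(y : PowerSeries ℂ) ^ 2 * thetaS ξ) ^ q
      = (y : PowerSeries ℂ) ^ (q * 2) * (-thetaS ξ) ^ q := by
    rw [neg_mul, ← mul_neg, mul_pow, ← pow_mul, mul_comm 2 q]
  rw [h2] at h1
  linear_combination h1

/-- Expansion of the product of the linear forms at a point. -/
theorem bp_shift (α β : ι → ℂ) (m : ι → ℕ) (q : ℕ) (hnz : ∀ i, α i ≠ 0 ∨ β i ≠ 0)
    (hm : ∀ i, 0 < m i ∧ m i < q) (hq : 0 < q)
    (hprop : ∀ i j, i ≠ j → α i * β j ≠ α j * β i) (ρ : ℂ) :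
    ∃ (m₀ : ℕ) (A : ℂ[X]), m₀ < q ∧ A.coeff 0 ≠ 0 ∧ ∀ ζ : PowerSeries ℂ,
      (bp α β m).eval₂ (coeToPowerSeries.ringHom) (ζ + PowerSeries.C ρ) = ζ ^ m₀ * aeval ζ A := by
  classical
  have hform : ∀ (i : ι) (ζ : PowerSeries ℂ),
      (coeToPowerSeries.ringHom (C (α i)) * (ζ + PowerSeries.C ρ)
        + coeToPowerSeries.ringHom (C (β i)) : PowerSeries ℂ)
      = aeval ζ (C (α i) * X + C (α i * ρ + β i)) := by
    intro i ζ
    have hc : ∀ a : ℂ, (coeToPowerSeries.ringHom (C a) : PowerSeries ℂ) = PowerSeries.C a :=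
      fun a => Polynomial.coe_C a
    rw [hc, hc, map_add, map_mul, aeval_C, aeval_X, aeval_C]
    change _ = PowerSeries.C (α i) * ζ + PowerSeries.C (α i * ρ + β i)
    rw [map_add, map_mul]
    ring
  by_cases hex : ∃ a, α a * ρ + β a = 0
  · obtain ⟨a, ha⟩ := hex
    have hαa : α a ≠ 0 := by
      rcases hnz a with h | h
      · exact h
      · intro h0
        rw [h0, zero_mul, zero_add] at ha
        exact h ha
    refine ⟨m a, C (α a ^ m a) * ∏ b ∈ Finset.univ.erase a,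
      (C (α b) * X + C (α b * ρ + β b)) ^ m b, (hm a).2, ?_, ?_⟩
    · rw [coeff_zero_eq_eval_zero, eval_mul, eval_prod, eval_C]
      refine mul_ne_zero (pow_ne_zero _ hαa) (Finset.prod_ne_zero_iff.mpr fun b hb => ?_)
      rw [eval_pow]
      apply pow_ne_zero
      simp only [eval_add, eval_mul, eval_C, eval_X, mul_zero, zero_add]
      intro h0
      apply hprop a b (Finset.ne_of_mem_erase hb).symm
      linear_combination (α a) * h0 - (α b) * ha
    · intro ζ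
      rw [bp_eval₂, ← Finset.mul_prod_erase _ _ (Finset.mem_univ a), map_mul, map_prod]
      simp only [hform, map_pow]
      rw [ha, C_0, add_zero, map_mul, aeval_X, aeval_C]
      ring
  · push Not at hex
    refine ⟨0, ∏ b, (C (α b) * X + C (α b * ρ + β b)) ^ m b, hq, ?_, ?_⟩
    · rw [coeff_zero_eq_eval_zero, eval_prod]
      refine Finset.prod_ne_zero_iff.mpr fun b hb => ?_
      rw [eval_pow]
      apply pow_ne_zero
      simp only [eval_add, eval_mul, eval_C, eval_X, mul_zero, zero_add]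
      exact hex b
    · intro ζ
      rw [bp_eval₂, pow_zero, one_mul, map_prod]
      simp only [hform, map_pow]

/-- A power series solution of the differential equation. -/
structure SerSol (α β : ι → ℂ) (m : ι → ℕ) (q : ℕ) (H G : ℂ[X]) (ξ : PowerSeries ℂ) : Prop where
  rel : (H : PowerSeries ℂ) * (-thetaS ξ) ^ q
      = (bp α β m).eval₂ (coeToPowerSeries.ringHom) ξ * (G : PowerSeries ℂ) ^ q
  ne : (bp α β m).eval₂ (coeToPowerSeries.ringHom) ξ ≠ 0

theorem SerSol.not_const {α β : ι → ℂ} {m : ι → ℕ} {q : ℕ} (hq : 0 < q) {H G : ℂ[X]}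
    (hG : G ≠ 0) {ξ : PowerSeries ℂ} (h : SerSol α β m q H G ξ) : thetaS ξ ≠ 0 := by
  intro h0
  have h1 := h.rel
  rw [h0, neg_zero, zero_pow hq.ne', mul_zero] at h1
  have hG' : (G : PowerSeries ℂ) ≠ 0 := by
    intro h2
    apply hG
    exact_mod_cast h2
  exact mul_ne_zero h.ne (pow_ne_zero q hG') h1.symm

theorem thetaS_add_C (ζ : PowerSeries ℂ) (ρ : ℂ) : thetaS (ζ + PowerSeries.C ρ) = thetaS ζ := by
  rw [thetaS_eq, thetaS_eq, map_add, PowerSeries.derivative_C, add_zero]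

/-- The normal form of the equation. -/
theorem SerSol.normal {α β : ι → ℂ} {m : ι → ℕ} {q : ℕ} {H G : ℂ[X]} {ζ : PowerSeries ℂ} {ρ : ℂ}
    (h : SerSol α β m q H G (ζ + PowerSeries.C ρ)) {m₀ : ℕ} {A : ℂ[X]}
    (hA : (bp α β m).eval₂ (coeToPowerSeries.ringHom) (ζ + PowerSeries.C ρ) = ζ ^ m₀ * aeval ζ A) :
    ((H : PowerSeries ℂ) * (-PowerSeries.X) ^ q) * (PowerSeries.derivative ℂ ζ) ^ q
      = (G : PowerSeries ℂ) ^ q * ζ ^ m₀ * aeval ζ A := by
  have h1 := h.rel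
  rw [hA, thetaS_add_C, thetaS_eq] at h1
  have h2 : (-(PowerSeries.X * PowerSeries.derivative ℂ ζ)) ^ q
      = (-PowerSeries.X : PowerSeries ℂ) ^ q * (PowerSeries.derivative ℂ ζ) ^ q := by
    rw [← mul_pow, neg_mul]
  rw [h2] at h1
  linear_combination h1

/-- The order of a solution at a point is bounded. -/
theorem SerSol.order_bound {α β : ι → ℂ} {m : ι → ℕ} {q : ℕ} (hnz : ∀ i, α i ≠ 0 ∨ β i ≠ 0)
    (hm : ∀ i, 0 < m i ∧ m i < q) (hq : 0 < q)
    (hprop : ∀ i j, i ≠ j → α i * β j ≠ α j * β i) {H G : ℂ[X]} (hH : H.coeff 0 ≠ 0)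
    (hG : G ≠ 0) {Dg : ℕ} (hGd : G.natDegree ≤ Dg) {ζ : PowerSeries ℂ} {ρ : ℂ}
    (h : SerSol α β m q H G (ζ + PowerSeries.C ρ)) (h0 : PowerSeries.constantCoeff ζ = 0) :
    ∃ (μ : ℕ) (a : PowerSeries ℂ), PowerSeries.constantCoeff a ≠ 0 ∧
      ζ = PowerSeries.X ^ (μ + 1) * a ∧ μ + 1 ≤ q * Dg := by
  have hζ : ζ ≠ 0 := by
    rintro rfl
    apply h.not_const hq hG
    rw [thetaS_add_C, thetaS_eq, map_zero, mul_zero]
  obtain ⟨r, a, ha, hr⟩ := exists_factor ζ hζ
  have hr0 : r ≠ 0 := by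
    rintro rfl
    rw [pow_zero, one_mul] at hr
    rw [hr] at h0
    exact ha h0
  obtain ⟨μ, rfl⟩ : ∃ μ, r = μ + 1 := ⟨r - 1, by omega⟩
  refine ⟨μ, a, ha, hr, ?_⟩
  obtain ⟨m₀, A, hm₀, hA0, hA⟩ := bp_shift α β m q hnz hm hq hprop ρ
  have hn := h.normal (hA ζ)
  have hG' : (G : PowerSeries ℂ) ≠ 0 := by
    intro h2
    apply hG
    exact_mod_cast h2
  obtain ⟨g, g₁, hg₁, hg⟩ := exists_factor (G : PowerSeries ℂ) hG'
  have hgD : g ≤ Dg := by
    refine le_trans ?_ hGd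
    apply le_natDegree_of_ne_zero
    rw [← Polynomial.coeff_coe, hg]
    have := PowerSeries.coeff_X_pow_mul g₁ g 0
    rw [zero_add] at this
    rw [this]
    simpa using hg₁
  rw [hr] at hn
  have hH' : PowerSeries.constantCoeff ((H : PowerSeries ℂ) * (-1) ^ q) ≠ 0 := by
    rw [map_mul, map_pow, map_neg, map_one]
    refine mul_ne_zero ?_ (pow_ne_zero _ (neg_ne_zero.mpr one_ne_zero))
    rw [Polynomial.constantCoeff_coe]
    exact hH
  obtain ⟨e1, e2⟩ := ode_normal ((H : PowerSeries ℂ) * (-PowerSeries.X) ^ q)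
    ((G : PowerSeries ℂ) ^ q) q (g * q) ((H : PowerSeries ℂ) * (-1) ^ q) (g₁ ^ q) hH'
    (by rw [map_pow]; exact pow_ne_zero _ hg₁)
    (by rw [neg_pow]; ring) (by rw [hg, mul_pow, ← pow_mul]) A hA0 q m₀ μ a ha hn
  -- q + q μ = g q + m₀ (μ + 1)
  obtain ⟨t, rfl⟩ : ∃ t, q = m₀ + (t + 1) := ⟨q - m₀ - 1, by omega⟩
  have h3 : (t + 1) * (μ + 1) = g * (m₀ + (t + 1)) := by
    have e3 : (m₀ + (t + 1)) + (m₀ + (t + 1)) * μ = m₀ * (μ + 1) + (t + 1) * (μ + 1) := by ring
    omega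
  calc μ + 1 ≤ (t + 1) * (μ + 1) := Nat.le_mul_of_pos_left _ (by omega)
    _ = g * (m₀ + (t + 1)) := h3
    _ ≤ Dg * (m₀ + (t + 1)) := Nat.mul_le_mul_right _ hgD
    _ = (m₀ + (t + 1)) * Dg := mul_comm _ _

/-- Two solutions of the same equation with the same initial coefficients coincide. -/
theorem SerSol.unique {α β : ι → ℂ} {m : ι → ℕ} {q : ℕ} (hnz : ∀ i, α i ≠ 0 ∨ β i ≠ 0)
    (hm : ∀ i, 0 < m i ∧ m i < q) (hq : 0 < q)
    (hprop : ∀ i j, i ≠ j → α i * β j ≠ α j * β i) {H G : ℂ[X]} (hH : H.coeff 0 ≠ 0)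
    (hG : G ≠ 0) {Dg : ℕ} (hGd : G.natDegree ≤ Dg) {ξ ξ' : PowerSeries ℂ}
    (h : SerSol α β m q H G ξ) (h' : SerSol α β m q H G ξ')
    (hc : ∀ j ≤ q * Dg, PowerSeries.coeff j ξ = PowerSeries.coeff j ξ') : ξ = ξ' := by
  set ρ := PowerSeries.constantCoeff ξ with hρ
  have hρ' : PowerSeries.constantCoeff ξ' = ρ := by
    rw [hρ, ← PowerSeries.coeff_zero_eq_constantCoeff_apply,
      ← PowerSeries.coeff_zero_eq_constantCoeff_apply, hc 0 (Nat.zero_le _)]
  set ζ := ξ - PowerSeries.C ρ with hζ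
  set ζ' := ξ' - PowerSeries.C ρ with hζ'
  have e1 : ξ = ζ + PowerSeries.C ρ := by rw [hζ]; ring
  have e2 : ξ' = ζ' + PowerSeries.C ρ := by rw [hζ']; ring
  rw [e1] at h
  rw [e2] at h'
  have z1 : PowerSeries.constantCoeff ζ = 0 := by
    rw [hζ, map_sub, PowerSeries.constantCoeff_C, ← hρ, sub_self]
  have z2 : PowerSeries.constantCoeff ζ' = 0 := by
    rw [hζ', map_sub, PowerSeries.constantCoeff_C, hρ', sub_self]
  obtain ⟨μ, a, ha, ha1, ha2⟩ := h.order_bound hnz hm hq hprop hH hG hGd z1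
  obtain ⟨ν, b, hb, hb1, hb2⟩ := h'.order_bound hnz hm hq hprop hH hG hGd z2
  obtain ⟨m₀, A, hm₀, hA0, hA⟩ := bp_shift α β m q hnz hm hq hprop ρ
  have n1 := h.normal (hA ζ)
  have n2 := h'.normal (hA ζ')
  rw [ha1] at n1
  rw [hb1] at n2
  have hG' : (G : PowerSeries ℂ) ≠ 0 := by
    intro h2
    apply hG
    exact_mod_cast h2
  have hH' : (H : PowerSeries ℂ) ≠ 0 := by
    intro h2
    apply hH
    rw [← Polynomial.coeff_coe, h2, map_zero]
  obtain ⟨f1, f2, f3⟩ := ode_unique_order _ _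
    (mul_ne_zero hH' (pow_ne_zero q (neg_ne_zero.mpr PowerSeries.X_ne_zero)))
    (pow_ne_zero q hG') A hA0 q m₀ hm₀ μ ν a b ha hb n1 n2
  subst f1
  have hab : a = b := by
    apply f3
    have h1 := hc (μ + 1) ha2
    have h2 : PowerSeries.coeff (μ + 1) ζ = PowerSeries.coeff (μ + 1) ζ' := by
      rw [hζ, hζ', map_sub, map_sub, h1]
    rw [ha1, hb1] at h2
    have h3 := PowerSeries.coeff_X_pow_mul a (μ + 1) 0
    have h4 := PowerSeries.coeff_X_pow_mul b (μ + 1) 0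
    rw [zero_add] at h3 h4
    rw [h3, h4] at h2
    simpa using h2
  rw [e1, e2, ha1, hb1, hab]

end Ode

section Core

variable {ι : Type*} [Fintype ι]

theorem map_coe_poly {R S : Type*} [CommRing R] [CommRing S] (φ : R →+* S) (p : R[X]) :
    PowerSeries.map φ (p : PowerSeries R) = ((p.map φ : S[X]) : PowerSeries S) := by
  ext n
  rw [PowerSeries.coeff_map, Polynomial.coeff_coe, Polynomial.coeff_coe, coeff_map]

theorem core (α β : ι → ℂ) (m : ι → ℕ) (q : ℕ) (hnz : ∀ i, α i ≠ 0 ∨ β i ≠ 0)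
    (hm : ∀ i, 0 < m i ∧ m i < q) (hq : 0 < q)
    (hprop : ∀ i j, i ≠ j → α i * β j ≠ α j * β i) (H : ℂ[X]) (hH : H.coeff 0 ≠ 0) (Dg : ℕ)
    (c : ℂ[X][X]) (hc : c ≠ 0) (ξ : ℕ → PowerSeries ℂ) (G : ℕ → ℂ[X])
    (hsol : ∀ n, SerSol α β m q H (G n) (ξ n)) (hG0 : ∀ n, G n ≠ 0)
    (hGd : ∀ n, (G n).natDegree ≤ Dg)
    (hne : ∀ n, c.eval₂ (coeToPowerSeries.ringHom) (ξ n) ≠ 0)
    (hdv : ∀ n, (PowerSeries.X : PowerSeries ℂ) ^ (n + 1) ∣
      c.eval₂ (coeToPowerSeries.ringHom) (ξ n)) : False := by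
  classical
  set Ξ := fam ξ with hΞ
  set ξs := PowerSeries.map umk Ξ with hξs
  have hge : ∀ j : ℕ, ∀ᶠ i in (hyperfilter ℕ : Filter ℕ), j ≤ i := fun j =>
    Nat.hyperfilter_le_atTop (eventually_ge_atTop j)
  have hroot : c.eval₂ (cps UL) ξs = 0 := by
    rw [hξs, hΞ, ← eval₂_map_umk]
    ext j
    rw [PowerSeries.coeff_map, map_zero, umk_eq_zero]
    filter_upwards [hge j] with i hi
    have h1 : (PowerSeries.coeff j (c.eval₂ cpf (fam ξ))) i
        = PowerSeries.coeff j (PowerSeries.map (uev i) (c.eval₂ cpf (fam ξ))) := by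
      rw [PowerSeries.coeff_map]; rfl
    rw [h1, eval₂_map_uev]
    exact (PowerSeries.X_pow_dvd_iff.mp (hdv i)) j (by omega)
  obtain ⟨ξ₀, hξ₀⟩ := lift_series ξs (fun d h1 h2 h3 =>
    serMap_of_algebraic ξs c hc hroot d h1 h2 h3)
  have hcoef : ∀ j, ∀ᶠ i in (hyperfilter ℕ : Filter ℕ),
      PowerSeries.coeff j (ξ i) = PowerSeries.coeff j ξ₀ := by
    intro j
    have h1 : umk (fun i => PowerSeries.coeff j (ξ i) - PowerSeries.coeff j ξ₀) = 0 := by
      have h2 : (fun i => PowerSeries.coeff j (ξ i) - PowerSeries.coeff j ξ₀)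
          = PowerSeries.coeff j Ξ - Pi.constRingHom ℕ ℂ (PowerSeries.coeff j ξ₀) := by
        rw [hΞ, fam, PowerSeries.coeff_mk]
        rfl
      rw [h2, map_sub, ← PowerSeries.coeff_map, ← hξs, hξ₀, PowerSeries.coeff_map]
      exact sub_self _
    filter_upwards [(umk_eq_zero _).mp h1] with i hi
    exact sub_eq_zero.mp hi
  have hcoefs : ∀ᶠ i in (hyperfilter ℕ : Filter ℕ), ∀ j ∈ Finset.range (q * Dg + 1),
      PowerSeries.coeff j (ξ i) = PowerSeries.coeff j ξ₀ :=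
    (Filter.eventually_all_finset _).mpr fun j _ => hcoef j
  obtain ⟨𝒢, h𝒢⟩ := exists_family G Dg hGd
  -- the differential equation
  have hode : cpf H * (-thetaS Ξ) ^ q
      = (bp α β m).eval₂ cpf Ξ * (𝒢 : PowerSeries (ℕ → ℂ)) ^ q := by
    apply fam_ext
    intro i
    rw [map_mul, map_mul, map_pow, map_pow, map_neg, map_thetaS, map_uev_cpf, hΞ, eval₂_map_uev,
      map_uev_fam, map_coe_poly, h𝒢]
    exact (hsol i).rel
  have hodeL := congrArg (PowerSeries.map umk) hode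
  rw [map_mul, map_mul, map_pow, map_pow, map_neg, map_thetaS, map_umk_cpf, hΞ, eval₂_map_umk,
    ← hΞ, ← hξs, map_coe_poly] at hodeL
  have hP : (bp α β m).eval₂ (cps UL) ξs ≠ 0 := by
    intro h0
    rw [bp_eval₂, Finset.prod_eq_zero_iff] at h0
    obtain ⟨a, _, ha⟩ := h0
    have ha' := eq_zero_of_pow_eq_zero ha
    have hca : ∀ z : ℂ, cps UL (C z) = PowerSeries.map (algebraMap ℂ UL) (PowerSeries.C z) := by
      intro z
      ext n
      rw [coeff_cps, PowerSeries.coeff_map, PowerSeries.coeff_C, Polynomial.coeff_C]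
    rw [hξ₀, hca, hca, ← map_mul, ← map_add] at ha'
    have ha2 : PowerSeries.C (α a) * ξ₀ + PowerSeries.C (β a) = 0 := by
      ext n
      have := congrArg (PowerSeries.coeff n) ha'
      rw [PowerSeries.coeff_map, map_zero, ← map_zero (algebraMap ℂ UL)] at this
      rw [(algebraMap ℂ UL).injective this, map_zero]
    have hαa : α a ≠ 0 := by
      rcases hnz a with h | h
      · exact h
      · intro h0
        rw [h0, map_zero, zero_mul, zero_add] at ha2
        have := congrArg PowerSeries.constantCoeff ha2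
        rw [PowerSeries.constantCoeff_C, map_zero] at this
        exact h this
    have hξC : ξ₀ = PowerSeries.C (-(α a)⁻¹ * β a) := by
      have h1 : PowerSeries.C (α a)⁻¹ * PowerSeries.C (α a) = (1 : PowerSeries ℂ) := by
        rw [← map_mul, inv_mul_cancel₀ hαa, map_one]
      have h2 : PowerSeries.C (-(α a)⁻¹ * β a)
          = -(PowerSeries.C (α a)⁻¹ * PowerSeries.C (β a) : PowerSeries ℂ) := by
        rw [map_mul, map_neg]; ring
      rw [h2]
      linear_combination (PowerSeries.C (α a)⁻¹) * ha2 - ξ₀ * h1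
    obtain ⟨i, hi⟩ := hcoefs.exists
    set ρ := -(α a)⁻¹ * β a with hρ
    have e1 : ξ i = (ξ i - PowerSeries.C ρ) + PowerSeries.C ρ := by ring
    have h1 := hsol i
    rw [e1] at h1
    have hz : ∀ j ≤ q * Dg, PowerSeries.coeff j (ξ i - PowerSeries.C ρ) = 0 := by
      intro j hj
      rw [map_sub, hi j (Finset.mem_range.mpr (by omega)), hξC, sub_self]
    obtain ⟨μ, b, hb, hb1, hb2⟩ := h1.order_bound hnz hm hq hprop hH (hG0 i) (hGd i) (by
      rw [← PowerSeries.coeff_zero_eq_constantCoeff_apply]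
      exact hz 0 (Nat.zero_le _))
    have h2 := hz (μ + 1) hb2
    rw [hb1] at h2
    have h3 := PowerSeries.coeff_X_pow_mul b (μ + 1) 0
    rw [zero_add] at h3
    rw [h3] at h2
    apply hb
    simpa using h2
  have h𝒢0 : ((𝒢.map umk : UL[X]) : PowerSeries UL) ≠ 0 := by
    intro h0
    have h1 : 𝒢.map umk = 0 := by exact_mod_cast h0
    exact map_umk_ne_zero 𝒢 (fun i => by rw [h𝒢]; exact hG0 i) h1
  have hdG : ∀ d : UL → UL, (∀ a b, d (a + b) = d a + d b) →
      (∀ a b, d (a * b) = a * d b + b * d a) → (∀ a : ℂ, d (algebraMap ℂ UL a) = 0) →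
      serMap d ((𝒢.map umk : UL[X]) : PowerSeries UL) = 0 := by
    intro d hadd hmul hconst
    have hD := isDer_serMap d hadd hmul
    have hξd : serMap d ξs = 0 := serMap_of_algebraic ξs c hc hroot d hadd hmul hconst
    have h1 := congrArg (serMap d) hodeL
    have h2 : serMap d (-thetaS ξs) = 0 := by
      rw [hD.neg, serMap_thetaS d hadd hmul, hξd]
      ext n
      rw [map_neg, coeff_thetaS, map_zero, mul_zero, neg_zero]
    have h3 : serMap d ((bp α β m).eval₂ (cps UL) ξs) = 0 := by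
      rw [hD.eval₂ _ (fun a => serMap_cps d hconst a), hξd, mul_zero]
    rw [hD.mul, hD.mul, hD.pow_eq_zero _ h2, serMap_cps d hconst, h3, mul_zero, mul_zero,
      mul_zero, add_zero, add_zero] at h1
    obtain ⟨q', rfl⟩ : ∃ q', q = q' + 1 := ⟨q - 1, by omega⟩
    rw [hD.pow] at h1
    have h4 := (mul_eq_zero.mp h1.symm).resolve_left hP
    refine (mul_eq_zero.mp h4).resolve_left (mul_ne_zero ?_ (pow_ne_zero _ h𝒢0))
    intro h5
    have h6 := congrArg PowerSeries.constantCoeff h5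
    rw [map_natCast, map_zero] at h6
    have h7 : ((q' + 1 : ℕ) : UL) = algebraMap ℂ UL ((q' + 1 : ℕ) : ℂ) := by
      rw [map_natCast]
    rw [h7, ← map_zero (algebraMap ℂ UL)] at h6
    have h8 := (algebraMap ℂ UL).injective h6
    exact (Nat.cast_ne_zero.mpr (Nat.succ_ne_zero q')) h8
  obtain ⟨G₀, hG₀⟩ : ∃ G₀ : ℂ[X], 𝒢.map umk = G₀.map (algebraMap ℂ UL) := by
    have : 𝒢.map umk ∈ lifts (algebraMap ℂ UL) := by
      rw [lifts_iff_coeff_lifts]
      intro n
      obtain ⟨a, ha⟩ := const_of_derivations ((𝒢.map umk).coeff n) (fun d h1 h2 h3 => by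
        have h4 := congrArg (PowerSeries.coeff n) (hdG d h1 h2 h3)
        rw [coeff_serMap, Polynomial.coeff_coe, map_zero] at h4
        exact h4)
      exact ⟨a, ha⟩
    obtain ⟨P, hP⟩ := (mem_lifts _).mp this
    exact ⟨P, hP.symm⟩
  have hGev : ∀ᶠ i in (hyperfilter ℕ : Filter ℕ), G i = G₀ := by
    have h1 : (𝒢 - G₀.map (Pi.constRingHom ℕ ℂ)).map umk = 0 := by
      rw [Polynomial.map_sub, hG₀, Polynomial.map_map, sub_eq_zero]
      rfl
    filter_upwards [eventually_map_eq_zero _ h1] with i hi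
    rw [Polynomial.map_sub, h𝒢, Polynomial.map_map, sub_eq_zero] at hi
    rw [hi]
    have : (uev i).comp (Pi.constRingHom ℕ ℂ) = RingHom.id ℂ := by ext a; rfl
    rw [this, Polynomial.map_id]
  have hS := hGev.and hcoefs
  obtain ⟨i₁, hi₁, hi₁'⟩ := hS.exists
  have huniq : ∀ i, G i = G₀ → (∀ j ∈ Finset.range (q * Dg + 1),
      PowerSeries.coeff j (ξ i) = PowerSeries.coeff j ξ₀) → ξ i = ξ i₁ := by
    intro i h1 h2
    have s1 := hsol i
    have s2 := hsol i₁
    rw [h1] at s1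
    rw [hi₁] at s2
    refine s1.unique hnz hm hq hprop hH (hi₁ ▸ hG0 i₁) (hi₁ ▸ hGd i₁) s2 ?_
    intro j hj
    rw [h2 j (Finset.mem_range.mpr (by omega)), hi₁' j (Finset.mem_range.mpr (by omega))]
  apply hne i₁
  ext j
  rw [map_zero]
  obtain ⟨i, ⟨h1, h2⟩, h3⟩ := (hS.and (hge j)).exists
  rw [← huniq i h1 h2]
  exact (PowerSeries.X_pow_dvd_iff.mp (hdv i)) j (by omega)

end Core

end Pool.Agent.LangEll
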