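import Pool.Agent.LangEll.Zero
import Pool.Agent.LangSuper.LevelOne

/-! The zero estimate for solutions (helper file). -/

set_option linter.unusedSectionVars false
set_option linter.unusedSimpArgs false
set_option linter.unusedVariables false
set_option maxHeartbeats 400000

open Polynomial Filter

namespace Pool.Agent.LangEll

open Pool.Agent.LangSuper

variable {ι : Type*} [Fintype ι]

theorem core_poly (α β : ι → ℂ) (m : ι → ℕ) (q : ℕ) (hnz : ∀ i, α i ≠ 0 ∨ β i ≠ 0)
    (hm : ∀ i, 0 < m i ∧ m i < q) (hq : 0 < q) (hsum : ∑ i, m i = q * 2)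
    (hprop : ∀ i j, i ≠ j → α i * β j ≠ α j * β i) (H : ℂ[X]) (hH : H.coeff 0 ≠ 0) (Dg D : ℕ)
    (c : ℂ[X][X]) (hc : c ≠ 0) (hcD : c.natDegree ≤ D) (x y G : ℕ → ℂ[X])
    (hy : ∀ n, (y n).coeff 0 ≠ 0)
    (hrel : ∀ n, H * wr (x n) (y n) ^ q = bform α β m (x n) (y n) * G n ^ q)
    (hb : ∀ n, bform α β m (x n) (y n) ≠ 0) (hG0 : ∀ n, G n ≠ 0)
    (hGd : ∀ n, (G n).natDegree ≤ Dg) (hF : ∀ n, hev D c (x n) (y n) ≠ 0)
    (hX : ∀ n, (X : ℂ[X]) ^ (n + 1) ∣ hev D c (x n) (y n)) : False := by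
  have hYu : ∀ n, (y n : PowerSeries ℂ) * (y n : PowerSeries ℂ)⁻¹ = 1 := fun n =>
    PowerSeries.mul_inv_cancel _ (by rw [Polynomial.constantCoeff_coe]; exact hy n)
  set ξ : ℕ → PowerSeries ℂ := fun n => (x n : PowerSeries ℂ) * (y n : PowerSeries ℂ)⁻¹ with hξ
  have hξy : ∀ n, ξ n * (y n : PowerSeries ℂ) = (x n : PowerSeries ℂ) := by
    intro n
    rw [hξ]
    linear_combination (x n : PowerSeries ℂ) * hYu n
  have hY0 : ∀ n, (y n : PowerSeries ℂ) ≠ 0 := fun n h0 => by
    have := hYu n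
    rw [h0, zero_mul] at this
    exact zero_ne_one this
  have hcF : ∀ n, ((hev D c (x n) (y n) : ℂ[X]) : PowerSeries ℂ)
      = (y n : PowerSeries ℂ) ^ D * c.eval₂ (coeToPowerSeries.ringHom) (ξ n) := fun n =>
    hev_eq D c hcD coeToPowerSeries.ringHom (x n) (y n) (ξ n) (hξy n)
  refine core α β m q hnz hm hq hprop H hH Dg c hc ξ G ?_ hG0 hGd ?_ ?_
  · intro n
    refine ⟨ode_series α β m q hsum H (x n) (y n) (G n) (hy n) (hrel n) (ξ n) (hξy n), ?_⟩
    intro h0
    rw [bp_eval₂, Finset.prod_eq_zero_iff] at h0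
    obtain ⟨a, ha, ha'⟩ := h0
    apply hb n
    rw [bform]
    apply Finset.prod_eq_zero ha
    have h1 := eq_zero_of_pow_eq_zero ha'
    have hma : m a ≠ 0 := (hm a).1.ne'
    have h2 : C (α a) * x n + C (β a) * y n = 0 := by
      have h3 : ((C (α a) * x n + C (β a) * y n : ℂ[X]) : PowerSeries ℂ) = 0 := by
        have h4 : ((C (α a) * x n + C (β a) * y n : ℂ[X]) : PowerSeries ℂ)
            = (coeToPowerSeries.ringHom (C (α a)) * ξ n + coeToPowerSeries.ringHom (C (β a)))
              * (y n : PowerSeries ℂ) := by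
          have hcc : ∀ p : ℂ[X], (p : PowerSeries ℂ) = coeToPowerSeries.ringHom p := fun _ => rfl
          rw [Polynomial.coe_add, Polynomial.coe_mul, Polynomial.coe_mul, ← hξy n, hcc (C (α a)),
            hcc (C (β a))]
          ring
        rw [h4, h1, zero_mul]
      exact_mod_cast h3
    rw [h2, zero_pow hma]
  · intro n h0
    apply hF n
    have h1 := hcF n
    rw [h0, mul_zero] at h1
    exact_mod_cast h1
  · intro n
    obtain ⟨w, hw⟩ := hX n
    have h1 := hcF n
    rw [hw, Polynomial.coe_mul, Polynomial.coe_pow, Polynomial.coe_X] at h1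
    refine ⟨(w : PowerSeries ℂ) * ((y n : PowerSeries ℂ)⁻¹) ^ D, ?_⟩
    have h2 : (y n : PowerSeries ℂ) ^ D * ((y n : PowerSeries ℂ)⁻¹) ^ D = 1 := by
      rw [← mul_pow, hYu, one_pow]
    linear_combination (-((y n : PowerSeries ℂ)⁻¹) ^ D) * h1
      - c.eval₂ (coeToPowerSeries.ringHom) (ξ n) * h2

theorem hev_reflect (D : ℕ) (c : ℂ[X][X]) (x y : ℂ[X]) :
    hev D (reflect D c) y x = hev D c x y := by
  rw [hev, hev, ← Finset.sum_range_reflect]
  refine Finset.sum_congr rfl fun i hi => ?_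
  rw [Finset.mem_range] at hi
  have e1 : D + 1 - 1 - i = D - i := by omega
  rw [e1, coeff_reflect, revAt_le (by omega : D - i ≤ D)]
  have e2 : D - (D - i) = i := by omega
  rw [e2]
  ring

theorem bform_swap (α β : ι → ℂ) (m : ι → ℕ) (x y : ℂ[X]) :
    bform β α m y x = bform α β m x y := by
  rw [bform, bform]
  exact Finset.prod_congr rfl fun i _ => by rw [add_comm]

/-- The zero estimate. -/
theorem zero_estimate (α β : ι → ℂ) (m : ι → ℕ) (q : ℕ) (hnz : ∀ i, α i ≠ 0 ∨ β i ≠ 0)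
    (hm : ∀ i, 0 < m i ∧ m i < q) (hsum : ∑ i, m i = q * 2)
    (hprop : ∀ i j, i ≠ j → α i * β j ≠ α j * β i)
    (h : ℂ[X]) (h0 : h.coeff 0 ≠ 0) (hdeg : 0 < h.natDegree) (hhq : h.natDegree < q)
    (k : ℕ) (hk : 0 < k) (D : ℕ) (c : ℂ[X][X]) (hc : c ≠ 0) (hcD : c.natDegree ≤ D) :
    ∃ N : ℕ, ∀ R : RatFunc ℂ, Sol α β m q h k R →
      hev D c R.num R.denom = 0 ∨ ¬ X ^ N ∣ hev D c R.num R.denom := by
  by_contra hcon
  push Not at hcon
  choose R hR hne hX using hcon
  have hq : 0 < q := by omega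
  have hh : h ≠ 0 := by rintro rfl; simp at h0
  have hH0 : (expand ℂ k h).coeff 0 ≠ 0 := by
    rw [coeff_expand hk, if_pos (dvd_zero k), Nat.zero_div]
    exact h0
  -- data
  have hdata : ∀ n, ∃ G : ℂ[X], G ≠ 0 ∧ G.natDegree ≤ k * h.natDegree ∧
      expand ℂ k h * wr (R n).num (R n).denom ^ q
        = bform α β m (R n).num (R n).denom * G ^ q ∧
      bform α β m (R n).num (R n).denom ≠ 0 := by
    intro n
    obtain ⟨z₁, z₂, G, hz₁, hz₂, hrel, hG, hW, hG0, hsupp⟩ :=
      (hR n).data α β m q 1 hnz le_rfl hm hsum hprop h0 hdeg hhq hk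
    refine ⟨G, hG0, ?_, main_rel α β m q _ _ z₁ z₂ _ G hz₁ hz₂ hrel hG, ?_⟩
    · have h1 := hsupp 0 one_pos G.natDegree (by
        simpa using hG0)
      have h2 : G.natDegree ≤ q * G.natDegree := Nat.le_mul_of_pos_left _ hq
      omega
    · intro h1
      rw [h1, zero_mul] at hrel
      exact mul_ne_zero ((expand_ne_zero hk).mpr hh) (pow_ne_zero q hz₁) hrel.symm
  choose G hG0 hGd hrel hb using hdata
  by_cases hcase : ∀ n, ∃ n', n < n' ∧ (R n').denom.coeff 0 ≠ 0
  · choose f hf hf' using hcase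
    exact core_poly α β m q hnz hm hq hsum hprop _ hH0 (k * h.natDegree) D c hc hcD
      (fun n => (R (f n)).num) (fun n => (R (f n)).denom) (fun n => G (f n)) hf'
      (fun n => hrel (f n)) (fun n => hb (f n)) (fun n => hG0 (f n)) (fun n => hGd (f n))
      (fun n => hne (f n)) (fun n => (pow_dvd_pow X (hf n)).trans (hX (f n)))
  · push Not at hcase
    obtain ⟨n₀, hn₀⟩ := hcase
    have hnum : ∀ n, n₀ < n → (R n).num.coeff 0 ≠ 0 := by
      intro n hn h1
      have h2 := hn₀ n hn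
      obtain ⟨a, b, hab⟩ := RatFunc.isCoprime_num_denom (R n)
      have h3 := congrArg (fun p => p.coeff 0) hab
      simp only [coeff_add, mul_coeff_zero, h1, h2, mul_zero, add_zero, coeff_one_zero] at h3
      exact zero_ne_one h3
    refine core_poly β α m q (fun i => (hnz i).symm) hm hq hsum
      (fun i j hij h1 => hprop i j hij (by linear_combination -h1))
      _ hH0 (k * h.natDegree) D (reflect D c) ?_ ?_
      (fun n => (R (n₀ + 1 + n)).denom) (fun n => (R (n₀ + 1 + n)).num)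
      (fun n => -G (n₀ + 1 + n)) (fun n => hnum _ (by omega)) ?_ ?_
      (fun n => neg_ne_zero.mpr (hG0 _)) (fun n => by rw [natDegree_neg]; exact hGd _) ?_ ?_
    · rw [Ne, reflect_eq_zero_iff]
      exact hc
    · rw [natDegree_le_iff_coeff_eq_zero]
      intro n hn
      rw [coeff_reflect, revAt_eq_self_of_lt hn]
      exact coeff_eq_zero_of_natDegree_lt (by omega)
    · intro n
      rw [bform_swap]
      have h1 := hrel (n₀ + 1 + n)
      have h2 : wr (R (n₀ + 1 + n)).denom (R (n₀ + 1 + n)).num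
          = -wr (R (n₀ + 1 + n)).num (R (n₀ + 1 + n)).denom := by
        rw [wr, wr]; ring
      rw [h2, neg_pow (wr _ _), neg_pow (G _)]
      linear_combination ((-1) ^ q : ℂ[X]) * h1
    · intro n
      rw [bform_swap]
      exact hb _
    · intro n
      rw [hev_reflect]
      exact hne _
    · intro n
      rw [hev_reflect]
      exact (pow_dvd_pow X (by omega)).trans (hX _)

end Pool.Agent.LangEll
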